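import Mathlib

set_option autoImplicit false

/-!
# Sequences sampled at the multiples of `q`: one-sided pair correlations control twisted means
-/

open Finset Filter Topology

namespace Q132.PV

/-- the translates of `w` are totally bounded for the supremum norm -/
def AlmostPeriodic (w : ℕ → ℂ) : Prop :=
  ∀ ε : ℝ, 0 < ε → ∃ K : ℕ, ∀ s : ℕ, ∃ k < K, ∀ m : ℕ, ‖w (m + s) - w (m + k)‖ ≤ ε

/-- every interval `[x, B x]` contains an element of the set -/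
def Scales (A : Set ℕ) : Prop := ∃ B : ℕ, ∀ x : ℕ, 1 ≤ x → ∃ N ∈ A, x ≤ N ∧ N ≤ B * x

lemma AlmostPeriodic.bdd {w : ℕ → ℂ} (hw : AlmostPeriodic w) : ∃ A : ℝ, 1 ≤ A ∧ ∀ n, ‖w n‖ ≤ A := by
  obtain ⟨K, hK⟩ := hw 1 one_pos
  refine ⟨1 + ∑ k ∈ range K, ‖w k‖, ?_, fun n => ?_⟩
  · have : 0 ≤ ∑ k ∈ range K, ‖w k‖ := sum_nonneg fun _ _ => norm_nonneg _
    linarith
  · obtain ⟨k, hk, h⟩ := hK n
    have h0 := h 0
    rw [zero_add, zero_add] at h0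
    have h1 : ‖w k‖ ≤ ∑ k ∈ range K, ‖w k‖ :=
      single_le_sum (f := fun k => ‖w k‖) (fun _ _ => norm_nonneg _) (mem_range.2 hk)
    have h2 : ‖w n‖ ≤ ‖w n - w k‖ + ‖w k‖ := by
      have := norm_add_le (w n - w k) (w k)
      rwa [sub_add_cancel] at this
    linarith

lemma sep_exists {J : Set ℕ} (hJ : J.Infinite) (D L : ℕ) :
    ∃ T : Finset ℕ, (T : Set ℕ) ⊆ J ∧ T.card = L ∧ ∀ j ∈ T, ∀ j' ∈ T, j < j' → j + D ≤ j' := by
  classical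
  induction L with
  | zero => exact ⟨∅, by simp, by simp, by simp⟩
  | succ L ih =>
    obtain ⟨T, hTJ, hTc, hT⟩ := ih
    obtain ⟨b, hbJ, hb⟩ := hJ.exists_gt (T.sup id + D)
    have hb' : ∀ j ∈ T, j + D < b := fun j hj => by
      have : j ≤ T.sup id := Finset.le_sup (f := id) hj
      omega
    have hbT : b ∉ T := fun h => by
      have := hb' b h
      omega
    refine ⟨insert b T, ?_, ?_, ?_⟩
    · intro x hx
      rw [Finset.mem_coe, Finset.mem_insert] at hx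
      rcases hx with rfl | hx
      · exact hbJ
      · exact hTJ hx
    · rw [Finset.card_insert_of_notMem hbT, hTc]
    · intro j hj j' hj' hlt
      rw [Finset.mem_insert] at hj hj'
      rcases hj with rfl | hj <;> rcases hj' with rfl | hj'
      · omega
      · have := hb' j' hj'
        omega
      · exact (hb' j hj).le
      · exact hT j hj j' hj' hlt

lemma sel {J : Set ℕ} (hJ : J.Infinite) (c : ℕ → ℕ) (K : ℕ) (hc : ∀ j, c j < K) (D L : ℕ) :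
    ∃ T : Finset ℕ, ∃ k : ℕ, (T : Set ℕ) ⊆ J ∧ T.card = L ∧ (∀ j ∈ T, c j = k) ∧
      ∀ j ∈ T, ∀ j' ∈ T, j < j' → j + D ≤ j' := by
  have h1 : ∃ k ∈ Set.Iio K, (J ∩ c ⁻¹' {k}).Infinite := by
    by_contra hcon
    push Not at hcon
    apply hJ
    have : J ⊆ ⋃ k ∈ Set.Iio K, (J ∩ c ⁻¹' {k}) := by
      intro j hj
      simp only [Set.mem_iUnion]
      exact ⟨c j, hc j, hj, rfl⟩
    refine Set.Finite.subset ((Set.finite_Iio K).biUnion fun k hk => ?_) this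
    exact hcon k hk
  obtain ⟨k, -, hk⟩ := h1
  obtain ⟨T, hTJ, hTc, hT⟩ := sep_exists hk D L
  exact ⟨T, k, fun x hx => (hTJ hx).1, hTc, fun j hj => (hTJ (Finset.mem_coe.2 hj)).2, hT⟩

/-- shifting a bounded sum -/
lemma shift_sum {E : Type*} [NormedAddCommGroup E] (F : ℤ → E) (A : ℝ) (hA : ∀ m, ‖F m‖ ≤ A) (N s : ℕ) :
    ‖∑ m ∈ Icc 1 N, F ((m : ℤ) + s) - ∑ m ∈ Icc 1 N, F (m : ℤ)‖ ≤ 2 * A * s := by
  induction s with
  | zero => simp
  | succ s ih =>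
    have h1 : ∑ m ∈ Icc 1 N, F ((m : ℤ) + (s + 1 : ℕ)) - ∑ m ∈ Icc 1 N, F ((m : ℤ) + s) =
        F ((N : ℤ) + s + 1) - F ((s : ℤ) + 1) := by
      have : ∀ n : ℕ, ∑ m ∈ Icc 1 n, F ((m : ℤ) + (s + 1 : ℕ)) - ∑ m ∈ Icc 1 n, F ((m : ℤ) + s) =
        F ((n : ℤ) + s + 1) - F ((s : ℤ) + 1) := by
        intro n
        induction n with
        | zero => simp
        | succ n ihn =>
          rw [sum_Icc_succ_top (by omega), sum_Icc_succ_top (by omega)]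
          have e1 : ((n + 1 : ℕ) : ℤ) + ((s + 1 : ℕ) : ℤ) = ((n + 1 : ℕ) : ℤ) + s + 1 := by push_cast; ring
          have e2 : ((n + 1 : ℕ) : ℤ) + (s : ℤ) = (n : ℤ) + s + 1 := by push_cast; ring
          rw [e1, e2, add_sub_add_comm, ihn]
          abel
      exact this N
    calc ‖∑ m ∈ Icc 1 N, F ((m : ℤ) + (s + 1 : ℕ)) - ∑ m ∈ Icc 1 N, F (m : ℤ)‖
        = ‖(∑ m ∈ Icc 1 N, F ((m : ℤ) + (s + 1 : ℕ)) - ∑ m ∈ Icc 1 N, F ((m : ℤ) + s)) +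
          (∑ m ∈ Icc 1 N, F ((m : ℤ) + s) - ∑ m ∈ Icc 1 N, F (m : ℤ))‖ := by
          congr 1; abel
      _ ≤ ‖F ((N : ℤ) + s + 1) - F ((s : ℤ) + 1)‖ + 2 * A * s := by
          refine (norm_add_le _ _).trans ?_
          rw [h1]
          linarith
      _ ≤ (A + A) + 2 * A * s := by
          have := norm_sub_le (F ((N : ℤ) + s + 1)) (F ((s : ℤ) + 1))
          have h2 := hA ((N : ℤ) + s + 1)
          have h3 := hA ((s : ℤ) + 1)
          linarith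
      _ = 2 * A * ((s + 1 : ℕ) : ℝ) := by push_cast; ring

lemma cs (T : Finset ℕ) (q N : ℕ) (G : ℤ → ℝ) (g : ℕ → ℂ) :
    ‖∑ j ∈ T, ∑ m ∈ Icc 1 N, ((G ((m : ℤ) + (q * j : ℕ)) : ℝ) : ℂ) * g m‖ ^ 2 ≤
      (∑ m ∈ Icc 1 N, (∑ j ∈ T, G ((m : ℤ) + (q * j : ℕ))) ^ 2) * ∑ m ∈ Icc 1 N, ‖g m‖ ^ 2 := by
  have h1 : ∑ j ∈ T, ∑ m ∈ Icc 1 N, ((G ((m : ℤ) + (q * j : ℕ)) : ℝ) : ℂ) * g m =
      ∑ m ∈ Icc 1 N, ((∑ j ∈ T, G ((m : ℤ) + (q * j : ℕ)) : ℝ) : ℂ) * g m := by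
    rw [sum_comm]
    refine sum_congr rfl fun m _ => ?_
    rw [← sum_mul]
    push_cast
    rfl
  rw [h1]
  have h2 : ‖∑ m ∈ Icc 1 N, ((∑ j ∈ T, G ((m : ℤ) + (q * j : ℕ)) : ℝ) : ℂ) * g m‖ ≤
      ∑ m ∈ Icc 1 N, |∑ j ∈ T, G ((m : ℤ) + (q * j : ℕ))| * ‖g m‖ := by
    refine (norm_sum_le _ _).trans (sum_le_sum fun m _ => ?_)
    rw [norm_mul, Complex.norm_real, Real.norm_eq_abs]
  calc _ ≤ (∑ m ∈ Icc 1 N, |∑ j ∈ T, G ((m : ℤ) + (q * j : ℕ))| * ‖g m‖) ^ 2 := by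
        exact pow_le_pow_left₀ (norm_nonneg _) h2 2
    _ ≤ _ := by
        refine (sum_mul_sq_le_sq_mul_sq _ _ _).trans ?_
        simp only [sq_abs]
        exact le_rfl

/-- sampling at the multiples of `q` -/
lemma sample {E : Type*} [AddCommMonoid E] (F : ℕ → E) (q x N : ℕ) (hq : 1 ≤ q) (hN : q * x ≤ N) :
    ∑ m ∈ Icc 1 N, (if q ∣ m ∧ m ≤ q * x then F (m / q) else 0) = ∑ n ∈ Icc 1 x, F n := by
  rw [← sum_filter]
  symm
  refine sum_bij' (fun n _ => q * n) (fun m _ => m / q) ?_ ?_ ?_ ?_ ?_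
  · intro n hn
    rw [mem_Icc] at hn
    rw [mem_filter, mem_Icc]
    refine ⟨⟨?_, ?_⟩, dvd_mul_right _ _, Nat.mul_le_mul_left q hn.2⟩
    · exact Nat.mul_pos hq hn.1
    · exact (Nat.mul_le_mul_left q hn.2).trans hN
  · intro m hm
    rw [mem_filter, mem_Icc] at hm
    obtain ⟨⟨h1, h2⟩, ⟨k, rfl⟩, h3⟩ := hm
    rw [Nat.mul_div_cancel_left _ hq, mem_Icc]
    refine ⟨?_, Nat.le_of_mul_le_mul_left h3 hq⟩
    rcases Nat.eq_zero_or_pos k with rfl | h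
    · omega
    · exact h
  · intro n _
    exact Nat.mul_div_cancel_left _ hq
  · intro m hm
    rw [mem_filter, mem_Icc] at hm
    exact Nat.mul_div_cancel' hm.2.1
  · intro n _
    rw [Nat.mul_div_cancel_left _ hq]

/-- the second moment of the sum of the translates -/
lemma second_moment (T : Finset ℕ) (q : ℕ) (G : ℤ → ℝ) (hG : ∀ m, |G m| ≤ 1) (A : Set ℕ) (D : ℕ)
    (hT : ∀ j ∈ T, ∀ j' ∈ T, j < j' → j + D ≤ j')
    (hp : ∀ j ∈ T, ∀ j' ∈ T, j < j' → j + D ≤ j' → ∀ ε : ℝ, 0 < ε → ∃ N₀ : ℕ, ∀ N ∈ A, N₀ ≤ N →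
      ∑ m ∈ Icc 1 N, G m * G ((m : ℤ) + (q * (j' - j) : ℕ)) ≤ ε * N) :
    ∃ N₀ : ℕ, ∀ N ∈ A, N₀ ≤ N →
      ∑ m ∈ Icc 1 N, (∑ j ∈ T, G ((m : ℤ) + (q * j : ℕ))) ^ 2 ≤ (T.card + 1) * N := by
  classical
  set L : ℝ := (T.card : ℝ) with hL
  set δ : ℝ := 1 / (2 * (L ^ 2 + 1)) with hδ
  have hL0 : 0 ≤ L := Nat.cast_nonneg _
  have hδ0 : 0 < δ := by positivity
  -- the pairs
  have h1 : ∀ p ∈ T ×ˢ T, ∃ N₀ : ℕ, ∀ N ∈ A, N₀ ≤ N →
      ∑ m ∈ Icc 1 N, G ((m : ℤ) + (q * p.1 : ℕ)) * G ((m : ℤ) + (q * p.2 : ℕ)) ≤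
        (if p.1 = p.2 then (N : ℝ) else 0) + 2 * δ * N := by
    have key : ∀ j ∈ T, ∀ j' ∈ T, j < j' → ∃ N₀ : ℕ, ∀ N ∈ A, N₀ ≤ N →
        ∑ m ∈ Icc 1 N, G ((m : ℤ) + (q * j : ℕ)) * G ((m : ℤ) + (q * j' : ℕ)) ≤ 2 * δ * N := by
      intro j hj j' hj' hlt
      obtain ⟨N₁, hN₁⟩ := hp j hj j' hj' hlt (hT j hj j' hj' hlt) δ hδ0
      obtain ⟨N₂, hN₂⟩ := exists_nat_ge (2 * (q * j : ℕ) / δ)
      refine ⟨max N₁ N₂, fun N hNA hN => ?_⟩
      have h2 := hN₁ N hNA (le_trans (le_max_left _ _) hN)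
      have h3 := shift_sum (fun m : ℤ => G m * G (m + (q * (j' - j) : ℕ))) 1 (fun m => by
        rw [Real.norm_eq_abs, abs_mul]
        exact mul_le_one₀ (hG _) (abs_nonneg _) (hG _)) N (q * j)
      have h4 : ∀ m : ℕ, (m : ℤ) + (q * j : ℕ) + (q * (j' - j) : ℕ) = (m : ℤ) + (q * j' : ℕ) := by
        intro m
        have : q * j' = q * j + q * (j' - j) := by
          rw [← Nat.mul_add]
          congr 1
          omega
        rw [this]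
        push_cast
        ring
      simp only [h4] at h3
      rw [Real.norm_eq_abs] at h3
      have h5 := (abs_le.1 h3).2
      have h6 : (2 * (q * j : ℕ) : ℝ) ≤ δ * N := by
        have : 2 * (q * j : ℕ) / δ ≤ (N : ℝ) :=
          hN₂.trans (by exact_mod_cast le_trans (le_max_right _ _) hN)
        rw [div_le_iff₀ hδ0] at this
        linarith
      linarith
    rintro ⟨j, j'⟩ hp'
    rw [mem_product] at hp'
    rcases lt_trichotomy j j' with h | h | h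
    · obtain ⟨N₀, hN₀⟩ := key j hp'.1 j' hp'.2 h
      refine ⟨N₀, fun N hNA hN => ?_⟩
      have := hN₀ N hNA hN
      simp only [h.ne, if_false]
      linarith
    · subst h
      refine ⟨0, fun N _ _ => ?_⟩
      rw [if_pos rfl]
      have h2 : ∑ m ∈ Icc 1 N, G ((m : ℤ) + (q * j : ℕ)) * G ((m : ℤ) + (q * j : ℕ)) ≤
          ∑ m ∈ Icc 1 N, (1 : ℝ) := by
        refine sum_le_sum fun m _ => ?_
        have h3 := abs_le.1 (hG ((m : ℤ) + (q * j : ℕ)))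
        nlinarith
      rw [sum_const, Nat.card_Icc, nsmul_eq_mul, mul_one, Nat.add_sub_cancel] at h2
      have : 0 ≤ 2 * δ * N := by positivity
      linarith
    · obtain ⟨N₀, hN₀⟩ := key j' hp'.2 j hp'.1 h
      refine ⟨N₀, fun N hNA hN => ?_⟩
      have := hN₀ N hNA hN
      simp only [h.ne', if_false]
      have h2 : ∑ m ∈ Icc 1 N, G ((m : ℤ) + (q * j : ℕ)) * G ((m : ℤ) + (q * j' : ℕ)) =
          ∑ m ∈ Icc 1 N, G ((m : ℤ) + (q * j' : ℕ)) * G ((m : ℤ) + (q * j : ℕ)) :=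
        sum_congr rfl fun m _ => mul_comm _ _
      rw [h2]
      linarith
  choose! N₀ hN₀ using h1
  refine ⟨(T ×ˢ T).sup N₀, fun N hNA hN => ?_⟩
  have h2 : ∑ m ∈ Icc 1 N, (∑ j ∈ T, G ((m : ℤ) + (q * j : ℕ))) ^ 2 =
      ∑ p ∈ T ×ˢ T, ∑ m ∈ Icc 1 N, G ((m : ℤ) + (q * p.1 : ℕ)) * G ((m : ℤ) + (q * p.2 : ℕ)) := by
    rw [sum_comm]
    refine sum_congr rfl fun m _ => ?_
    rw [sq, sum_mul_sum, sum_product]
  rw [h2]
  have h3 : ∑ p ∈ T ×ˢ T, ∑ m ∈ Icc 1 N, G ((m : ℤ) + (q * p.1 : ℕ)) * G ((m : ℤ) + (q * p.2 : ℕ)) ≤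
      ∑ p ∈ T ×ˢ T, ((if p.1 = p.2 then (N : ℝ) else 0) + 2 * δ * N) :=
    sum_le_sum fun p hp' => hN₀ p hp' N hNA ((Finset.le_sup (f := N₀) hp').trans hN)
  refine h3.trans ?_
  rw [sum_add_distrib, sum_const, card_product, nsmul_eq_mul]
  have h4 : ∑ p ∈ T ×ˢ T, (if p.1 = p.2 then (N : ℝ) else 0) = L * N := by
    rw [sum_product]
    simp only [sum_ite_eq]
    rw [sum_ite_mem, inter_self, sum_const, nsmul_eq_mul]
  rw [h4]
  have h5 : ((T.card * T.card : ℕ) : ℝ) * (2 * δ * N) ≤ N := by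
    push_cast
    rw [← hL]
    have h6 : L * L * (2 * δ) ≤ 1 := by
      rw [hδ]
      rw [show L * L * (2 * (1 / (2 * (L ^ 2 + 1)))) = L ^ 2 / (L ^ 2 + 1) by field_simp]
      rw [div_le_one (by positivity)]
      linarith
    have hN0 : (0 : ℝ) ≤ N := Nat.cast_nonneg _
    nlinarith
  linarith

/-- **Transfer.** If `G` at the multiples of `q` is `± φ` and the correlations of `G` with its translates by the
differences of the elements of `q J` are asymptotically at most zero along `A`, then `φ` is orthogonal to all almost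
periodic sequences. -/
theorem core (φ G : ℤ → ℝ) (hφ : ∀ m, |φ m| ≤ 1) (hG : ∀ m, |G m| ≤ 1) (q : ℕ) (hq : 1 ≤ q) (κ : ℝ)
    (hκ : |κ| = 1) (hφG : ∀ n : ℤ, G (q * n) = κ * φ n) (J : Set ℕ) (hJ : J.Infinite) (A : Set ℕ)
    (hA : Scales A) (D : ℕ)
    (hp : ∀ j ∈ J, ∀ j' ∈ J, j < j' → j + D ≤ j' → ∀ ε : ℝ, 0 < ε → ∃ N₀ : ℕ, ∀ N ∈ A, N₀ ≤ N →
      ∑ m ∈ Icc 1 N, G m * G ((m : ℤ) + (q * (j' - j) : ℕ)) ≤ ε * N)
    (w : ℕ → ℂ) (hw : AlmostPeriodic w) (ε : ℝ) (hε : 0 < ε) :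
    ∃ x₀ : ℕ, ∀ x : ℕ, x₀ ≤ x → ‖∑ n ∈ Icc 1 x, ((φ n : ℝ) : ℂ) * w n‖ ≤ ε * x := by
  classical
  obtain ⟨W, hW1, hW⟩ := hw.bdd
  obtain ⟨B, hB⟩ := hA
  obtain ⟨K, hK⟩ := hw (ε / 3) (by positivity)
  choose c hc hcw using hK
  obtain ⟨L, hL⟩ := exists_nat_ge (18 * (B * q) * W ^ 2 / ε ^ 2 + 1)
  have hL1 : (1 : ℝ) ≤ L := by
    have : 0 ≤ 18 * (B * q) * W ^ 2 / ε ^ 2 := by positivity
    linarith
  have hL2 : 18 * (B * q) * W ^ 2 ≤ L * ε ^ 2 := by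
    have : 18 * (B * q) * W ^ 2 / ε ^ 2 ≤ L := by linarith
    rwa [div_le_iff₀ (by positivity)] at this
  obtain ⟨T, k, hTJ, hTc, hTk, hT⟩ := sel hJ c K hc D L
  obtain ⟨N₀, hN₀⟩ := second_moment T q G hG A D hT
    (fun j hj j' hj' => hp j (hTJ hj) j' (hTJ hj'))
  set jm : ℕ := T.sup id with hjm
  have hjm' : ∀ j ∈ T, j ≤ jm := fun j hj => Finset.le_sup (f := id) hj
  obtain ⟨x₁, hx₁⟩ := exists_nat_ge (2 * W * jm / (ε / 3))
  refine ⟨max 1 (max N₀ x₁), fun x hx => ?_⟩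
  have hx1 : 1 ≤ x := le_trans (le_max_left _ _) hx
  have hxN : N₀ ≤ x := le_trans (le_trans (le_max_left _ _) (le_max_right _ _)) hx
  have hxx : x₁ ≤ x := le_trans (le_trans (le_max_right _ _) (le_max_right _ _)) hx
  have hx0 : (0 : ℝ) < x := by exact_mod_cast hx1
  have he : 2 * W * jm ≤ ε / 3 * x := by
    have : 2 * W * jm / (ε / 3) ≤ x := hx₁.trans (by exact_mod_cast hxx)
    rw [div_le_iff₀ (by positivity)] at this
    linarith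
  obtain ⟨N, hNA, hN1, hN2⟩ := hB (q * x) (Nat.mul_pos hq hx1)
  have hNx : x ≤ N := (Nat.le_mul_of_pos_left x hq).trans hN1
  have h2 := hN₀ N hNA (hxN.trans hNx)
  set g : ℕ → ℂ := fun m => if q ∣ m ∧ m ≤ q * x then w (m / q + k) else 0 with hg
  have h3 := cs T q N G g
  -- the test function
  have h4 : ∑ m ∈ Icc 1 N, ‖g m‖ ^ 2 ≤ W ^ 2 * x := by
    have e1 : ∀ m, ‖g m‖ ^ 2 = if q ∣ m ∧ m ≤ q * x then ‖w (m / q + k)‖ ^ 2 else 0 := by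
      intro m
      simp only [hg]
      split_ifs
      · rfl
      · simp
    simp only [e1]
    rw [sample (fun n => ‖w (n + k)‖ ^ 2) q x N hq hN1]
    calc ∑ n ∈ Icc 1 x, ‖w (n + k)‖ ^ 2 ≤ ∑ n ∈ Icc 1 x, W ^ 2 :=
          sum_le_sum fun n _ => pow_le_pow_left₀ (norm_nonneg _) (hW _) 2
      _ = W ^ 2 * x := by
          rw [sum_const, Nat.card_Icc, Nat.add_sub_cancel, nsmul_eq_mul, mul_comm]
  set S : ℂ := ∑ n ∈ Icc 1 x, ((φ n : ℝ) : ℂ) * w n with hS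
  have h5 : ∀ j ∈ T, ‖∑ m ∈ Icc 1 N, ((G ((m : ℤ) + (q * j : ℕ)) : ℝ) : ℂ) * g m - κ * S‖ ≤
      2 * (ε / 3) * x := by
    intro j hj
    have e1 : ∀ m : ℕ, ((G ((m : ℤ) + (q * j : ℕ)) : ℝ) : ℂ) * g m =
        if q ∣ m ∧ m ≤ q * x then (fun n : ℕ => (κ : ℂ) * (((φ ((n : ℤ) + j) : ℝ) : ℂ) * w (n + k))) (m / q)
          else 0 := by
      intro m
      simp only [hg]
      split_ifs with h
      · obtain ⟨⟨n, rfl⟩, -⟩ := h
        rw [Nat.mul_div_cancel_left _ hq]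
        have e2 : ((q * n : ℕ) : ℤ) + ((q * j : ℕ) : ℤ) = (q : ℤ) * ((n : ℤ) + j) := by push_cast; ring
        rw [e2, hφG]
        push_cast
        ring
      · rw [mul_zero]
    simp only [e1]
    rw [sample (fun n : ℕ => (κ : ℂ) * (((φ ((n : ℤ) + j) : ℝ) : ℂ) * w (n + k))) q x N hq hN1]
    rw [← mul_sum, ← mul_sub, norm_mul, Complex.norm_real, Real.norm_eq_abs, hκ, one_mul]
    have e3 : ∑ n ∈ Icc 1 x, ((φ ((n : ℤ) + j) : ℝ) : ℂ) * w (n + k) - S =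
        ∑ n ∈ Icc 1 x, ((φ ((n : ℤ) + j) : ℝ) : ℂ) * (w (n + k) - w (n + j)) +
        (∑ n ∈ Icc 1 x, ((φ ((n : ℤ) + j) : ℝ) : ℂ) * w (n + j) - S) := by
      have : ∑ n ∈ Icc 1 x, ((φ ((n : ℤ) + j) : ℝ) : ℂ) * (w (n + k) - w (n + j)) =
          ∑ n ∈ Icc 1 x, ((φ ((n : ℤ) + j) : ℝ) : ℂ) * w (n + k) -
          ∑ n ∈ Icc 1 x, ((φ ((n : ℤ) + j) : ℝ) : ℂ) * w (n + j) := by
        rw [← sum_sub_distrib]
        exact sum_congr rfl fun n _ => mul_sub _ _ _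
      rw [this]
      ring
    rw [e3]
    refine (norm_add_le _ _).trans ?_
    have e4 : ‖∑ n ∈ Icc 1 x, ((φ ((n : ℤ) + j) : ℝ) : ℂ) * (w (n + k) - w (n + j))‖ ≤ ε / 3 * x := by
      calc _ ≤ ∑ n ∈ Icc 1 x, ε / 3 := by
            refine (norm_sum_le _ _).trans (sum_le_sum fun n _ => ?_)
            rw [norm_mul, Complex.norm_real, Real.norm_eq_abs]
            have e5 := hcw j n
            rw [hTk j hj, norm_sub_rev] at e5
            calc |φ ((n : ℤ) + j)| * ‖w (n + k) - w (n + j)‖ ≤ 1 * (ε / 3) :=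
                  mul_le_mul (hφ _) e5 (norm_nonneg _) zero_le_one
              _ = ε / 3 := one_mul _
        _ = ε / 3 * x := by rw [sum_const, Nat.card_Icc, Nat.add_sub_cancel, nsmul_eq_mul, mul_comm]
    have e6 : ‖∑ n ∈ Icc 1 x, ((φ ((n : ℤ) + j) : ℝ) : ℂ) * w (n + j) - S‖ ≤ ε / 3 * x := by
      have e7 := shift_sum (fun m : ℤ => ((φ m : ℝ) : ℂ) * w m.toNat) W (fun m => by
        rw [norm_mul, Complex.norm_real, Real.norm_eq_abs]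
        calc |φ m| * ‖w m.toNat‖ ≤ 1 * W := mul_le_mul (hφ _) (hW _) (norm_nonneg _) zero_le_one
          _ = W := one_mul _) x j
      have e8 : ∀ n : ℕ, ((n : ℤ) + (j : ℤ)).toNat = n + j := fun n => by omega
      simp only [e8, Int.toNat_natCast] at e7
      refine e7.trans ?_
      have : (j : ℝ) ≤ jm := by exact_mod_cast hjm' j hj
      have h6 : 2 * W * j ≤ 2 * W * jm := by
        apply mul_le_mul_of_nonneg_left this
        linarith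
      linarith
    linarith
  -- the sum over the translates
  set Z : ℂ := ∑ j ∈ T, ∑ m ∈ Icc 1 N, ((G ((m : ℤ) + (q * j : ℕ)) : ℝ) : ℂ) * g m with hZ
  have h6 : ‖Z - L * (κ * S)‖ ≤ L * (2 * (ε / 3) * x) := by
    have e1 : Z - L * (κ * S) =
        ∑ j ∈ T, (∑ m ∈ Icc 1 N, ((G ((m : ℤ) + (q * j : ℕ)) : ℝ) : ℂ) * g m - κ * S) := by
      rw [sum_sub_distrib, sum_const, hTc, nsmul_eq_mul]
    rw [e1]
    calc _ ≤ ∑ j ∈ T, 2 * (ε / 3) * x := (norm_sum_le _ _).trans (sum_le_sum h5)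
      _ = L * (2 * (ε / 3) * x) := by rw [sum_const, hTc, nsmul_eq_mul]
  have h7 : L * ‖S‖ ≤ ‖Z‖ + L * (2 * (ε / 3) * x) := by
    have e1 : ‖(L : ℂ) * (κ * S)‖ = L * ‖S‖ := by
      rw [norm_mul, norm_mul, Complex.norm_natCast, Complex.norm_real, Real.norm_eq_abs, hκ, one_mul]
    rw [← e1]
    calc ‖(L : ℂ) * (κ * S)‖ = ‖Z - (Z - L * (κ * S))‖ := by congr 1; ring
      _ ≤ ‖Z‖ + ‖Z - L * (κ * S)‖ := norm_sub_le _ _
      _ ≤ _ := by linarith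
  have h8 : ‖Z‖ ^ 2 ≤ (L * (ε / 3) * x) ^ 2 := by
    refine h3.trans ?_
    rw [hTc] at h2
    have hN2' : (N : ℝ) ≤ B * (q * x) := by exact_mod_cast hN2
    have e0 : 0 ≤ ∑ m ∈ Icc 1 N, ‖g m‖ ^ 2 := sum_nonneg fun _ _ => by positivity
    calc _ ≤ ((L + 1) * N) * (W ^ 2 * x) := mul_le_mul h2 h4 e0 (by positivity)
      _ ≤ ((L + L) * (B * (q * x))) * (W ^ 2 * x) := by
          apply mul_le_mul_of_nonneg_right _ (by positivity)
          apply mul_le_mul _ hN2' (by positivity) (by positivity)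
          linarith
      _ = L * (18 * (B * q) * W ^ 2) * (x ^ 2 / 9) := by ring
      _ ≤ L * (L * ε ^ 2) * (x ^ 2 / 9) := by
          apply mul_le_mul_of_nonneg_right _ (by positivity)
          apply mul_le_mul_of_nonneg_left hL2 (by positivity)
      _ = (L * (ε / 3) * x) ^ 2 := by ring
  have h9 : ‖Z‖ ≤ L * (ε / 3) * x := by
    have := abs_le_of_sq_le_sq' h8 (by positivity)
    exact this.2
  have h10 : L * ‖S‖ ≤ L * (ε * x) := by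
    calc L * ‖S‖ ≤ L * (ε / 3) * x + L * (2 * (ε / 3) * x) := by linarith
      _ = L * (ε * x) := by ring
  exact le_of_mul_le_mul_left h10 (by linarith)

end Q132.PV
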