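import Mathlib

set_option autoImplicit false

/-!
# Integer polynomials: squarefree parts, separability over the complex numbers, scaling of the roots
-/

open Finset Polynomial

namespace Q132.PV

/-- the Liouville function on the integers, `lam (-m) = lam m`, `lam 0 = 0` -/
noncomputable def lam (m : ℤ) : ℝ := if m = 0 then 0 else (-1) ^ (ArithmeticFunction.cardFactors m.natAbs)

lemma lam_mul (m n : ℤ) : lam (m * n) = lam m * lam n := by
  unfold lam
  by_cases hm : m = 0
  · simp [hm]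
  · by_cases hn : n = 0
    · simp [hn]
    · rw [if_neg (mul_ne_zero hm hn), if_neg hm, if_neg hn, Int.natAbs_mul,
        ArithmeticFunction.cardFactors_mul (Int.natAbs_ne_zero.2 hm) (Int.natAbs_ne_zero.2 hn), pow_add]

lemma lam_neg (m : ℤ) : lam (-m) = lam m := by
  unfold lam
  rw [Int.natAbs_neg]
  simp only [neg_eq_zero]

lemma lam_one : lam 1 = 1 := by
  unfold lam
  simp

lemma lam_pow (m : ℤ) (k : ℕ) : lam (m ^ k) = lam m ^ k := by
  induction k with
  | zero => simp [lam_one]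
  | succ k ih => rw [pow_succ, lam_mul, ih, pow_succ]

lemma lam_prod {ι : Type*} (s : Finset ι) (f : ι → ℤ) : lam (∏ i ∈ s, f i) = ∏ i ∈ s, lam (f i) := by
  classical
  induction s using Finset.induction_on with
  | empty => simp [lam_one]
  | insert i s hi ih => rw [prod_insert hi, prod_insert hi, lam_mul, ih]

lemma lam_abs (m : ℤ) : |lam m| ≤ 1 := by
  unfold lam
  split_ifs
  · simp
  · rw [abs_pow, abs_neg, abs_one, one_pow]

lemma lam_abs_one {m : ℤ} (hm : m ≠ 0) : |lam m| = 1 := by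
  unfold lam
  rw [if_neg hm, abs_pow, abs_neg, abs_one, one_pow]

lemma lam_sq {m : ℤ} (hm : m ≠ 0) : lam m ^ 2 = 1 := by
  rw [← sq_abs, lam_abs_one hm, one_pow]

/-! ### squarefree parts -/

lemma decomp_ufd (f : ℤ[X]) (hf : f ≠ 0) : ∃ a g : ℤ[X], Squarefree a ∧ f = a * g ^ 2 := by
  classical
  revert hf
  induction f using UniqueFactorizationMonoid.induction_on_prime with
  | h₁ => intro h; exact absurd rfl h
  | h₂ u hu => intro _; exact ⟨u, 1, hu.squarefree, by simp⟩
  | h₃ b p hb hp ih =>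
    intro _
    obtain ⟨a, g, ha, rfl⟩ := ih hb
    by_cases hpa : p ∣ a
    · obtain ⟨c, rfl⟩ := hpa
      exact ⟨c, p * g, ha.squarefree_of_dvd (dvd_mul_left c p), by ring⟩
    · refine ⟨p * a, g, ?_, by ring⟩
      rw [squarefree_mul_iff]
      refine ⟨?_, hp.squarefree, ha⟩
      exact (Irreducible.isRelPrime_iff_not_dvd hp.irreducible).2 hpa

/-- every nonzero integer polynomial is `c a g ^ 2` with `a` primitive and squarefree -/
lemma decomp (f : ℤ[X]) (hf : f ≠ 0) : ∃ (c : ℤ) (a g : ℤ[X]), c ≠ 0 ∧ a.IsPrimitive ∧ Squarefree a ∧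
    f = C c * a * g ^ 2 := by
  obtain ⟨a, g, ha, rfl⟩ := decomp_ufd f hf
  have ha0 : a ≠ 0 := ha.ne_zero
  refine ⟨a.content, a.primPart, g, ?_, a.isPrimitive_primPart, ?_, ?_⟩
  · rwa [Ne, content_eq_zero_iff]
  · exact ha.squarefree_of_dvd a.primPart_dvd
  · rw [← a.eq_C_content_mul_primPart]

/-! ### separability -/

/-- squarefree integer polynomials have only simple complex roots -/
lemma separable_of_squarefree (f : ℤ[X]) (hf : Squarefree f) :
    (f.map (Int.castRingHom ℂ)).Separable := by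
  have h1 : (f.map (Int.castRingHom ℚ)).Separable := by
    rw [PerfectField.separable_iff_squarefree]
    have h0 : f.map (Int.castRingHom ℚ) ≠ 0 := by
      rw [Ne, Polynomial.map_eq_zero_iff (Int.castRingHom ℚ).injective_int]
      exact hf.ne_zero
    rw [squarefree_iff_irreducible_sq_not_dvd_of_ne_zero h0]
    intro x hx hdvd
    set y : ℤ[X] := (IsLocalization.integerNormalization (nonZeroDivisors ℤ) x).primPart with hy
    have hyp : y.IsPrimitive := isPrimitive_primPart _
    obtain ⟨b, hb, hbx⟩ := IsLocalization.integerNormalization_spec (nonZeroDivisors ℤ) x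
    set n : ℤ[X] := IsLocalization.integerNormalization (nonZeroDivisors ℤ) x with hn
    have hn0 : n ≠ 0 := by
      intro h
      rw [hn, IsFractionRing.integerNormalization_eq_zero_iff] at h
      exact hx.ne_zero h
    have hc0 : n.content ≠ 0 := by rwa [Ne, content_eq_zero_iff]
    have hb0 : b ≠ 0 := nonZeroDivisors.ne_zero hb
    -- x and y.map are associated
    have h2 : C ((n.content : ℤ) : ℚ) * y.map (Int.castRingHom ℚ) = C ((b : ℤ) : ℚ) * x := by
      have e1 : n.map (Int.castRingHom ℚ) = C ((b : ℤ) : ℚ) * x := by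
        have : n.map (algebraMap ℤ ℚ) = b • x := hbx
        rw [show Int.castRingHom ℚ = algebraMap ℤ ℚ from rfl, this, Algebra.smul_def]
        rfl
      rw [← e1]
      conv_rhs => rw [n.eq_C_content_mul_primPart]
      rw [Polynomial.map_mul, Polynomial.map_C]
      rfl
    have hyx : y.map (Int.castRingHom ℚ) ∣ x := by
      have e2 : x = C ((b : ℤ) : ℚ)⁻¹ * (C ((n.content : ℤ) : ℚ) * y.map (Int.castRingHom ℚ)) := by
        rw [h2, ← mul_assoc, ← C_mul, inv_mul_cancel₀ (by exact_mod_cast hb0), C_1, one_mul]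
      rw [e2]
      exact dvd_mul_of_dvd_right (dvd_mul_left _ _) _
    have h3 : (y * y).map (Int.castRingHom ℚ) ∣ f.map (Int.castRingHom ℚ) := by
      rw [Polynomial.map_mul]
      exact (mul_dvd_mul hyx hyx).trans hdvd
    have h4 : y * y ∣ f :=
      (IsPrimitive.Int.dvd_iff_map_cast_dvd_map_cast _ _ (hyp.mul hyp)).2 h3
    have h5 : IsUnit y := hf y h4
    have h6 : x ∣ y.map (Int.castRingHom ℚ) := by
      have e2 : y.map (Int.castRingHom ℚ) = C ((n.content : ℤ) : ℚ)⁻¹ * (C ((b : ℤ) : ℚ) * x) := by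
        rw [← h2, ← mul_assoc, ← C_mul, inv_mul_cancel₀ (by exact_mod_cast hc0), C_1, one_mul]
      rw [e2]
      exact dvd_mul_of_dvd_right (dvd_mul_left _ _) _
    have h7 : IsUnit (y.map (Int.castRingHom ℚ)) := h5.map (Polynomial.mapRingHom (Int.castRingHom ℚ))
    exact hx.not_isUnit (isUnit_of_dvd_unit h6 h7)
  have h2 := h1.map (f := algebraMap ℚ ℂ)
  rw [Polynomial.map_map] at h2
  have h3 : (algebraMap ℚ ℂ).comp (Int.castRingHom ℚ) = Int.castRingHom ℂ := Subsingleton.elim _ _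
  rw [← h3]
  exact h2

lemma squarefree_of_separable (f : ℤ[X]) (hp : f.IsPrimitive)
    (h : (f.map (Int.castRingHom ℂ)).Separable) : Squarefree f := by
  intro g hg
  have h1 : IsUnit (g.map (Int.castRingHom ℂ)) := by
    apply h.squarefree
    rw [← Polynomial.map_mul]
    exact Polynomial.map_dvd _ hg
  have h2 : g.natDegree = 0 := by
    rw [← natDegree_map_eq_of_injective (Int.castRingHom ℂ).injective_int g]
    exact natDegree_eq_zero_of_isUnit h1
  obtain ⟨c, rfl⟩ := natDegree_eq_zero.1 h2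
  have h3 : IsUnit c := hp c ((dvd_mul_right _ _).trans hg)
  exact isUnit_C.2 h3

lemma sep_comp_lin (H : ℂ[X]) (hH : H.Separable) (u v : ℂ) (hu : u ≠ 0) :
    (H.comp (C u * X + C v)).Separable := by
  obtain ⟨a, b, h⟩ := hH
  refine ⟨a.comp (C u * X + C v), C u⁻¹ * b.comp (C u * X + C v), ?_⟩
  have h1 := congrArg (fun p : ℂ[X] => p.comp (C u * X + C v)) h
  simp only [add_comp, mul_comp, one_comp] at h1
  rw [derivative_comp]
  have h2 : derivative (C u * X + C v : ℂ[X]) = C u := by simp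
  rw [h2]
  have h3 : C u⁻¹ * C u = (1 : ℂ[X]) := by rw [← C_mul, inv_mul_cancel₀ hu, C_1]
  linear_combination h1 + (b.comp (C u * X + C v)) * (derivative H).comp (C u * X + C v) * h3

/-! ### the roots -/

/-- any two distinct complex roots are at distance at least `D` -/
def RootsApart (D : ℝ) (f : ℤ[X]) : Prop :=
  ∀ x y : ℂ, aeval x f = 0 → aeval y f = 0 → x ≠ y → D ≤ ‖x - y‖

lemma root_data (f : ℤ[X]) (hf : f ≠ 0) : ∃ δ R : ℝ, 0 < δ ∧ 0 ≤ R ∧ (∀ z : ℂ, aeval z f = 0 → ‖z‖ ≤ R) ∧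
    ∀ z z' : ℂ, aeval z f = 0 → aeval z' f = 0 → z ≠ z' → δ ≤ ‖z - z'‖ := by
  classical
  set s : Finset ℂ := (f.map (Int.castRingHom ℂ)).roots.toFinset with hs
  have hf0 : f.map (Int.castRingHom ℂ) ≠ 0 := by
    rwa [Ne, Polynomial.map_eq_zero_iff (Int.castRingHom ℂ).injective_int]
  have hmem : ∀ z : ℂ, aeval z f = 0 → z ∈ s := by
    intro z hz
    rw [hs, Multiset.mem_toFinset, mem_roots hf0, IsRoot.def, eval_map]
    exact hz
  set Z : ℝ := ∑ p ∈ s.offDiag, 1 / ‖p.1 - p.2‖ with hZ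
  have hZ0 : 0 ≤ Z := sum_nonneg fun _ _ => by positivity
  refine ⟨1 / (1 + Z), ∑ z ∈ s, ‖z‖, by positivity, sum_nonneg fun _ _ => norm_nonneg _, ?_, ?_⟩
  · intro z hz
    exact single_le_sum (f := fun z => ‖z‖) (fun _ _ => norm_nonneg _) (hmem z hz)
  · intro z z' hz hz' hne
    have h1 : 1 / ‖z - z'‖ ≤ Z := by
      have : (z, z') ∈ s.offDiag := by
        rw [mem_offDiag]
        exact ⟨hmem z hz, hmem z' hz', hne⟩
      exact single_le_sum (f := fun p : ℂ × ℂ => 1 / ‖p.1 - p.2‖) (fun _ _ => by positivity) this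
    have h2 : 0 < ‖z - z'‖ := norm_pos_iff.2 (sub_ne_zero.2 hne)
    rw [div_le_iff₀ (by positivity)]
    rw [div_le_iff₀ h2] at h1
    nlinarith

/-- the roots of `H` are `q` times the roots of `f` -/
lemma scaled_roots (f H : ℤ[X]) (q : ℕ) (hq : 1 ≤ q) (c : ℂ) (hc : c ≠ 0)
    (hH : ∀ z : ℂ, aeval ((q : ℂ) * z) H = c * aeval z f) (z : ℂ) (hz : aeval z H = 0) :
    ∃ w : ℂ, aeval w f = 0 ∧ z = q * w := by
  have hq0 : (q : ℂ) ≠ 0 := by
    have : q ≠ 0 := by omega
    exact_mod_cast this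
  refine ⟨z / q, ?_, by field_simp⟩
  have h1 := hH (z / q)
  rw [mul_div_cancel₀ _ hq0, hz] at h1
  exact (mul_eq_zero.1 h1.symm).resolve_left hc

lemma scaled_sep (f H : ℤ[X]) (q : ℕ) (hq : 1 ≤ q) (c : ℂ) (hc : c ≠ 0)
    (hH : ∀ z : ℂ, aeval ((q : ℂ) * z) H = c * aeval z f)
    (hf : (f.map (Int.castRingHom ℂ)).Separable) : (H.map (Int.castRingHom ℂ)).Separable := by
  have hq0 : (q : ℂ) ≠ 0 := by
    have : q ≠ 0 := by omega
    exact_mod_cast this
  have h1 : H.map (Int.castRingHom ℂ) =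
      (C c * f.map (Int.castRingHom ℂ)).comp (C (q : ℂ)⁻¹ * X + C 0) := by
    apply Polynomial.funext
    intro z
    rw [eval_comp, eval_mul, eval_C, eval_map, eval_map]
    have h2 := hH ((q : ℂ)⁻¹ * z)
    rw [← mul_assoc, mul_inv_cancel₀ hq0, one_mul] at h2
    simp only [eval_add, eval_mul, eval_C, eval_X, add_zero]
    exact h2
  rw [h1]
  apply sep_comp_lin _ _ _ _ (inv_ne_zero hq0)
  exact hf.unit_mul (isUnit_C.2 (isUnit_iff_ne_zero.2 hc))

/-- the product of `H` and a remote translate of `H`: simple roots which are far apart -/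
lemma pair_apart (f H : ℤ[X]) (q : ℕ) (hq : 1 ≤ q) (c : ℂ) (hc : c ≠ 0)
    (hH : ∀ z : ℂ, aeval ((q : ℂ) * z) H = c * aeval z f)
    (hf : (f.map (Int.castRingHom ℂ)).Separable) (δ R D : ℝ) (hD : 0 < D)
    (hR : ∀ z : ℂ, aeval z f = 0 → ‖z‖ ≤ R)
    (hδ : ∀ z z' : ℂ, aeval z f = 0 → aeval z' f = 0 → z ≠ z' → δ ≤ ‖z - z'‖)
    (hqD : D ≤ q * δ) (l : ℕ) (hl : 2 * R + D ≤ l) :
    ((H * H.comp (X + C ((q * l : ℕ) : ℤ))).map (Int.castRingHom ℂ)).Separable ∧
      RootsApart D (H * H.comp (X + C ((q * l : ℕ) : ℤ))) := by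
  have hq0 : (q : ℂ) ≠ 0 := by
    have : q ≠ 0 := by omega
    exact_mod_cast this
  have hq1 : (1 : ℝ) ≤ q := by exact_mod_cast hq
  have hHs := scaled_sep f H q hq c hc hH hf
  have hcomp : ∀ z : ℂ, aeval z (H.comp (X + C ((q * l : ℕ) : ℤ))) = aeval (z + ((q * l : ℕ) : ℂ)) H := by
    intro z
    rw [aeval_comp]
    congr 1
    simp
  -- the roots of the two factors are far apart
  have hfar : ∀ z z' : ℂ, aeval z H = 0 → aeval (z' + ((q * l : ℕ) : ℂ)) H = 0 → D ≤ ‖z - z'‖ := by
    intro z z' hz hz'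
    obtain ⟨w, hw, rfl⟩ := scaled_roots f H q hq c hc hH z hz
    obtain ⟨w', hw', he⟩ := scaled_roots f H q hq c hc hH _ hz'
    have e1 : (q : ℂ) * w - z' = q * (w - w' + l) := by
      have : z' = q * w' - (q * l : ℕ) := by rw [← he]; ring
      rw [this]
      push_cast
      ring
    rw [e1, norm_mul, Complex.norm_natCast]
    have h1 : (l : ℝ) - (‖w‖ + ‖w'‖) ≤ ‖w - w' + l‖ := by
      have h2 : ‖(l : ℂ)‖ ≤ ‖w - w' + l‖ + ‖w - w'‖ := by
        calc ‖(l : ℂ)‖ = ‖(w - w' + l) - (w - w')‖ := by congr 1; ring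
          _ ≤ _ := norm_sub_le _ _
      rw [Complex.norm_natCast] at h2
      have h3 := norm_sub_le w w'
      linarith
    have h4 := hR w hw
    have h5 := hR w' hw'
    have h6 : D ≤ ‖w - w' + l‖ := by linarith
    nlinarith
  constructor
  · rw [Polynomial.map_mul]
    refine Separable.mul hHs ?_ ?_
    · have e1 : (H.comp (X + C ((q * l : ℕ) : ℤ))).map (Int.castRingHom ℂ) =
          (H.map (Int.castRingHom ℂ)).comp (C 1 * X + C ((q * l : ℕ) : ℂ)) := by
        rw [Polynomial.map_comp]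
        congr 1
        simp
      rw [e1]
      exact sep_comp_lin _ hHs _ _ one_ne_zero
    · rw [Polynomial.isCoprime_iff_aeval_ne_zero_of_isAlgClosed (k := ℂ) (K := ℂ)]
      intro z
      by_contra hcon
      push Not at hcon
      obtain ⟨h1, h2⟩ := hcon
      have key : ∀ P : ℤ[X], aeval z (P.map (Int.castRingHom ℂ)) = aeval z P := by
        intro P
        rw [aeval_def, eval₂_map]
        rfl
      have h1' : aeval z H = 0 := by rw [← key]; exact h1
      have h2' : aeval z (H.comp (X + C ((q * l : ℕ) : ℤ))) = 0 := by rw [← key]; exact h2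
      rw [hcomp] at h2'
      have := hfar z z h1' h2'
      rw [sub_self, norm_zero] at this
      linarith
  · intro x y hx hy hne
    rw [map_mul, mul_eq_zero, hcomp] at hx hy
    rcases hx with hx | hx <;> rcases hy with hy | hy
    · obtain ⟨w, hw, rfl⟩ := scaled_roots f H q hq c hc hH x hx
      obtain ⟨w', hw', rfl⟩ := scaled_roots f H q hq c hc hH y hy
      have h1 := hδ w w' hw hw' (fun h => hne (by rw [h]))
      rw [← mul_sub, norm_mul, Complex.norm_natCast]
      calc D ≤ q * δ := hqD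
        _ ≤ q * ‖w - w'‖ := by gcongr
    · exact hfar x y hx hy
    · rw [norm_sub_rev]
      exact hfar y x hy hx
    · obtain ⟨w, hw, he⟩ := scaled_roots f H q hq c hc hH _ hx
      obtain ⟨w', hw', he'⟩ := scaled_roots f H q hq c hc hH _ hy
      have h0 : x - y = q * (w - w') := by linear_combination he - he'
      have h1 := hδ w w' hw hw' (fun h => hne (by
        have : x - y = 0 := by rw [h0, h, sub_self, mul_zero]
        exact sub_eq_zero.1 this))
      rw [h0, norm_mul, Complex.norm_natCast]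
      calc D ≤ q * δ := hqD
        _ ≤ q * ‖w - w'‖ := by gcongr

end Q132.PV
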