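import Pool.Agent.Q132.PV.A
import Pool.Agent.Q132.PV.B

set_option autoImplicit false

/-!
# The normal form: monic polynomials
-/

open Finset Polynomial

namespace Q132.PV

/-- the monic integer polynomial with the roots `d a z`, `z` a root of `f`, `a` the leading coefficient -/
noncomputable def mon (f : ℤ[X]) (d : ℤ) : ℤ[X] := scaleRoots (integralNormalization f) d

lemma natDegree_mon (f : ℤ[X]) (d : ℤ) : (mon f d).natDegree = f.natDegree := by
  unfold mon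
  rw [natDegree_scaleRoots, natDegree_integralNormalization]

lemma monic_mon (f : ℤ[X]) (hf : f ≠ 0) (d : ℤ) : (mon f d).Monic := by
  unfold mon
  rw [monic_scaleRoots_iff]
  exact monic_integralNormalization hf

lemma coeff_mon (f : ℤ[X]) (d M : ℤ) (hM : M ∣ d) (i : ℕ) (hi : i < (mon f d).natDegree) :
    M ∣ (mon f d).coeff i := by
  rw [natDegree_mon] at hi
  unfold mon
  rw [coeff_scaleRoots, natDegree_integralNormalization]
  apply dvd_mul_of_dvd_right
  exact hM.trans (dvd_pow_self d (by omega))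

lemma aeval_mon {A : Type*} [CommRing A] (f : ℤ[X]) (hf : 1 ≤ f.natDegree) (d : ℤ) (z : A) :
    aeval ((d : A) * ((f.leadingCoeff : A) * z)) (mon f d) =
      (d : A) ^ f.natDegree * ((f.leadingCoeff : A) ^ (f.natDegree - 1) * aeval z f) := by
  have h1 := scaleRoots_eval₂_mul (p := integralNormalization f) (Int.castRingHom A)
    ((f.leadingCoeff : A) * z) d
  have h2 := integralNormalization_eval₂_leadingCoeff_mul hf (Int.castRingHom A) z
  rw [natDegree_integralNormalization] at h1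
  simp only [eq_intCast] at h1 h2
  rw [aeval_def, aeval_def]
  unfold mon
  have e : algebraMap ℤ A = Int.castRingHom A := Subsingleton.elim _ _
  rw [e, h1, h2]

lemma res_infinite {S : Set ℕ} (hS : S.Infinite) (q : ℕ) (hq : 1 ≤ q) :
    ∃ r : ℕ, {j : ℕ | q * j + r ∈ S}.Infinite := by
  by_contra hcon
  push Not at hcon
  apply hS
  have : S ⊆ ⋃ r ∈ Set.Iio q, (fun j => q * j + r) '' {j : ℕ | q * j + r ∈ S} := by
    intro s hs
    simp only [Set.mem_iUnion]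
    refine ⟨s % q, Nat.mod_lt _ hq, s / q, ?_, Nat.div_add_mod s q⟩
    show q * (s / q) + s % q ∈ S
    rwa [Nat.div_add_mod s q]
  refine Set.Finite.subset ((Set.finite_Iio q).biUnion fun r _ => ?_) this
  exact (hcon r).image _

/-- **Transfer for polynomials**: `H` at the multiples of `q` is a nonzero integer times `f`, and the lags are the
differences of an infinite set which are divisible by `q` -/
theorem transfer (f H : ℤ[X]) (q : ℕ) (hq : 1 ≤ q) (c : ℤ) (hc : c ≠ 0)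
    (hH : ∀ n : ℤ, H.eval (q * n) = c * f.eval n)
    (S A : Set ℕ) (hS : S.Infinite) (hA : Scales A) (E : ℕ)
    (hp : ∀ s ∈ S, ∀ s' ∈ S, ∀ l : ℕ, E ≤ l → 1 ≤ l → s' = s + q * l → ∀ ε : ℝ, 0 < ε → ∃ N₀ : ℕ,
      ∀ N ∈ A, N₀ ≤ N → ∑ n ∈ Icc 1 N, lam ((H * H.comp (X + C ((q * l : ℕ) : ℤ))).eval (n : ℤ)) ≤ ε * N)
    (w : ℕ → ℂ) (hw : AlmostPeriodic w) (ε : ℝ) (hε : 0 < ε) :
    ∃ x₀ : ℕ, ∀ x : ℕ, x₀ ≤ x → ‖∑ n ∈ Icc 1 x, ((lam (f.eval (n : ℤ)) : ℝ) : ℂ) * w n‖ ≤ ε * x := by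
  obtain ⟨r, hr⟩ := res_infinite hS q hq
  refine core (fun n => lam (f.eval n)) (fun m => lam (H.eval m)) (fun _ => lam_abs _) (fun _ => lam_abs _)
    q hq (lam c) (lam_abs_one hc) (fun n => ?_) {j : ℕ | q * j + r ∈ S} hr A hA E ?_ w hw ε hε
  · rw [hH, lam_mul]
  · intro j hj j' hj' hlt hE ε hε
    obtain ⟨N₀, hN₀⟩ := hp _ hj _ hj' (j' - j) (by omega) (by omega) (by
      have : q * j' = q * j + q * (j' - j) := by
        rw [← Nat.mul_add]
        congr 1
        omega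
      omega) ε hε
    refine ⟨N₀, fun N hNA hN => ?_⟩
    refine le_trans (le_of_eq ?_) (hN₀ N hNA hN)
    refine sum_congr rfl fun m _ => ?_
    rw [eval_mul, lam_mul, eval_comp]
    simp

/-- the one-sided case of Chowla's conjecture for `h(X) h(X + t)`: `h` monic with all other coefficients divisible by
`M`, `t` a multiple of `M` and a difference of two elements of the set `S h`, the roots simple and at distance `≥ D`,
along the set of scales `A h` -/
def WeakMonic (M : ℕ) (D : ℝ) (S A : ℤ[X] → Set ℕ) : Prop :=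
  ∀ h : ℤ[X], h.Monic → 1 ≤ h.natDegree → (∀ i < h.natDegree, (M : ℤ) ∣ h.coeff i) →
    ∀ s ∈ S h, ∀ s' ∈ S h, ∀ t : ℕ, 1 ≤ t → s' = s + t → M ∣ t →
    Squarefree (h * h.comp (X + C (t : ℤ))) → RootsApart D (h * h.comp (X + C (t : ℤ))) →
    ∀ ε : ℝ, 0 < ε → ∃ N₀ : ℕ, ∀ N ∈ A h, N₀ ≤ N →
      ∑ n ∈ Icc 1 N, lam ((h * h.comp (X + C (t : ℤ))).eval (n : ℤ)) ≤ ε * N

lemma weak_pos (M : ℕ) (hM : 1 ≤ M) (D : ℝ) (S A : ℤ[X] → Set ℕ) (hS : ∀ h, (S h).Infinite)
    (hA : ∀ h, Scales (A h)) (hW : WeakMonic M D S A) (f : ℤ[X]) (hf : Squarefree f) (hd : 1 ≤ f.natDegree)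
    (hpos : 0 < f.leadingCoeff) (w : ℕ → ℂ) (hw : AlmostPeriodic w) (ε : ℝ) (hε : 0 < ε) :
    ∃ x₀ : ℕ, ∀ x : ℕ, x₀ ≤ x → ‖∑ n ∈ Icc 1 x, ((lam (f.eval (n : ℤ)) : ℝ) : ℂ) * w n‖ ≤ ε * x := by
  have hf0 : f ≠ 0 := hf.ne_zero
  obtain ⟨δ, R, hδ, hR0, hR, hδ'⟩ := root_data f hf0
  set D' : ℝ := max D 1 with hD'
  have hD'0 : 0 < D' := lt_of_lt_of_le one_pos (le_max_right _ _)
  obtain ⟨d₀, hd₀⟩ := exists_nat_ge (D' / δ)
  set d : ℕ := M * (d₀ + 1) with hd_def
  obtain ⟨a, ha⟩ : ∃ a : ℕ, f.leadingCoeff = a := ⟨f.leadingCoeff.toNat, by omega⟩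
  have ha1 : 1 ≤ a := by omega
  have hd1 : 1 ≤ d := Nat.mul_pos hM (Nat.succ_pos _)
  set q : ℕ := d * a with hq
  have hq1 : 1 ≤ q := Nat.mul_pos hd1 ha1
  set H : ℤ[X] := mon f d with hH
  have hqD : D' ≤ q * δ := by
    have h1 : (d₀ : ℝ) ≤ q := by
      have : d₀ ≤ q := by
        calc d₀ ≤ 1 * (d₀ + 1) * 1 := by omega
          _ ≤ M * (d₀ + 1) * a := by gcongr
      exact_mod_cast this
    rw [div_le_iff₀ hδ] at hd₀
    nlinarith
  have hMd : (M : ℤ) ∣ (d : ℤ) := by exact_mod_cast dvd_mul_right M (d₀ + 1)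
  have hMq : M ∣ q := (dvd_mul_right M (d₀ + 1)).mul_right a
  have hmonic : H.Monic := monic_mon f hf0 d
  have hHd : H.natDegree = f.natDegree := natDegree_mon f d
  have hev : ∀ {B : Type} [CommRing B] (z : B), aeval ((q : B) * z) H =
      ((d : B) ^ f.natDegree * (a : B) ^ (f.natDegree - 1)) * aeval z f := by
    intro B _ z
    have h1 := aeval_mon f hd (d : ℤ) z
    rw [ha] at h1
    push_cast at h1
    rw [hq]
    push_cast
    rw [mul_assoc, h1, mul_assoc]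
  have hc0 : ((d : ℤ) ^ f.natDegree * (a : ℤ) ^ (f.natDegree - 1)) ≠ 0 := by
    have h1 : (d : ℤ) ≠ 0 := by omega
    have h2 : (a : ℤ) ≠ 0 := by omega
    positivity
  have hcC : ((d : ℂ) ^ f.natDegree * (a : ℂ) ^ (f.natDegree - 1)) ≠ 0 := by
    exact_mod_cast hc0
  obtain ⟨E, hE⟩ := exists_nat_ge (2 * R + D')
  refine transfer f H q hq1 _ hc0 (fun n => ?_) (S H) (A H) (hS H) (hA H) E ?_ w hw ε hε
  · have := hev n
    simpa [coe_aeval_eq_eval] using this
  · intro s hs s' hs' l hl hl1 hss ε hε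
    obtain ⟨h1, h2⟩ := pair_apart f H q hq1 _ hcC (fun z => hev z) (separable_of_squarefree f hf) δ R D' hD'0
      hR hδ' hqD l (hE.trans (by exact_mod_cast hl))
    have hF : (H * H.comp (X + C ((q * l : ℕ) : ℤ))).Monic := by
      refine hmonic.mul (hmonic.comp (monic_X_add_C _) ?_)
      rw [natDegree_X_add_C]
      exact one_ne_zero
    refine hW H hmonic (by rw [hHd]; exact hd) (fun i hi => coeff_mon f d M hMd i hi) s hs s' hs' (q * l)
      (Nat.mul_pos hq1 hl1) hss (hMq.mul_right l) (squarefree_of_separable _ hF.isPrimitive h1) ?_ ε hε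
    intro x y hx hy hne
    exact (le_max_left D 1).trans (h2 x y hx hy hne)

theorem weak_strong (M : ℕ) (hM : 1 ≤ M) (D : ℝ) (S A : ℤ[X] → Set ℕ) (hS : ∀ h, (S h).Infinite)
    (hA : ∀ h, Scales (A h)) (hW : WeakMonic M D S A) (f : ℤ[X]) (hf : Squarefree f) (hd : 1 ≤ f.natDegree)
    (w : ℕ → ℂ) (hw : AlmostPeriodic w) (ε : ℝ) (hε : 0 < ε) :
    ∃ x₀ : ℕ, ∀ x : ℕ, x₀ ≤ x → ‖∑ n ∈ Icc 1 x, ((lam (f.eval (n : ℤ)) : ℝ) : ℂ) * w n‖ ≤ ε * x := by
  have h0 : f.leadingCoeff ≠ 0 := leadingCoeff_ne_zero.2 hf.ne_zero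
  rcases lt_or_gt_of_ne h0 with h | h
  · have h1 : Squarefree (-f) := by
      have : Associated f (-f) := (Associated.refl f).neg_right
      exact this.squarefree_iff.1 hf
    obtain ⟨x₀, hx₀⟩ := weak_pos M hM D S A hS hA hW (-f) h1 (by rwa [natDegree_neg])
      (by rw [leadingCoeff_neg]; omega) w hw ε hε
    refine ⟨x₀, fun x hx => ?_⟩
    have := hx₀ x hx
    simpa only [eval_neg, lam_neg] using this
  · exact weak_pos M hM D S A hS hA hW f hf hd h w hw ε hε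

end Q132.PV
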