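import Pool.Agent.Q132.PV.C

set_option autoImplicit false

/-!
# Products of linear forms; examples of almost periodic sequences
-/

open Finset Polynomial

namespace Q132.PV

/-! ### almost periodic sequences -/

lemma ap_of_finite (w : ℕ → ℂ) (h : ∀ ε : ℝ, 0 < ε → ∃ (α : Type) (_ : Finite α) (c : ℕ → α),
    ∀ s s', c s = c s' → ∀ m : ℕ, ‖w (m + s) - w (m + s')‖ ≤ ε) : AlmostPeriodic w := by
  classical
  intro ε hε
  obtain ⟨α, hα, c, hc⟩ := h ε hε
  have := Fintype.ofFinite α
  -- a representative for every colour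
  have h1 : ∀ x : α, ∃ k : ℕ, (∃ s, c s = x) → c k = x := by
    intro x
    by_cases hx : ∃ s, c s = x
    · obtain ⟨s, hs⟩ := hx
      exact ⟨s, fun _ => hs⟩
    · exact ⟨0, fun h => absurd h hx⟩
  choose r hr using h1
  refine ⟨(univ.sup r) + 1, fun s => ⟨r (c s), ?_, fun m => ?_⟩⟩
  · exact Nat.lt_succ_of_le (Finset.le_sup (f := r) (mem_univ _))
  · exact hc _ _ (hr (c s) ⟨s, rfl⟩).symm m

lemma ap_example (a q : ℕ) (hq : 1 ≤ q) (θ : ℝ) : AlmostPeriodic (fun n : ℕ =>
    if n ≡ a [MOD q] then Complex.exp (2 * Real.pi * Complex.I * θ * n) else 0) := by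
  apply ap_of_finite
  intro ε hε
  obtain ⟨L, hL⟩ := exists_nat_ge (8 / ε + 1)
  have hL1 : (1 : ℝ) ≤ L := by
    have : 0 < 8 / ε := by positivity
    linarith
  have hL0 : (0 : ℝ) < L := by linarith
  have hLn : 0 < L := by exact_mod_cast hL0
  refine ⟨Fin q × Fin L, inferInstance, fun s => (⟨s % q, Nat.mod_lt _ hq⟩,
    ⟨⌊Int.fract (θ * s) * L⌋₊, ?_⟩), ?_⟩
  · rw [Nat.floor_lt (mul_nonneg (Int.fract_nonneg _) hL0.le)]
    calc Int.fract (θ * s) * L < 1 * L := mul_lt_mul_of_pos_right (Int.fract_lt_one _) hL0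
      _ = L := one_mul _
  · intro s s' hss m
    rw [Prod.mk.injEq, Fin.mk.injEq, Fin.mk.injEq] at hss
    obtain ⟨h1, h2⟩ := hss
    have h3 : (m + s ≡ a [MOD q]) ↔ (m + s' ≡ a [MOD q]) := by
      have : m + s ≡ m + s' [MOD q] := Nat.ModEq.add_left m h1
      exact ⟨fun h => this.symm.trans h, fun h => this.trans h⟩
    simp only [h3]
    split_ifs
    · have h4 : |Int.fract (θ * s) - Int.fract (θ * s')| ≤ 1 / L := by
        have e1 := Nat.floor_le (mul_nonneg (Int.fract_nonneg (θ * s)) hL0.le)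
        have e2 := Nat.lt_floor_add_one (Int.fract (θ * s) * L)
        have e3 := Nat.floor_le (mul_nonneg (Int.fract_nonneg (θ * s')) hL0.le)
        have e4 := Nat.lt_floor_add_one (Int.fract (θ * s') * L)
        rw [← h2] at e3 e4
        rw [abs_le, le_div_iff₀ hL0, ← sub_nonneg]
        constructor
        · have : -(1 / (L : ℝ)) * L = -1 := by field_simp
          nlinarith
        · linarith
      have e5 : ∀ t : ℕ, Complex.exp (2 * Real.pi * Complex.I * θ * t) =
          Complex.exp (Complex.I * ((2 * Real.pi * Int.fract (θ * t) : ℝ) : ℂ)) := by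
        intro t
        have : (2 * Real.pi * Complex.I * θ * t : ℂ) =
            Complex.I * ((2 * Real.pi * Int.fract (θ * t) : ℝ) : ℂ) + (⌊θ * t⌋ : ℤ) * (2 * Real.pi * Complex.I) := by
          have h6 : (θ : ℝ) * t = Int.fract (θ * t) + ⌊θ * t⌋ := (Int.fract_add_floor _).symm
          have h7 : ((θ : ℝ) : ℂ) * (t : ℂ) = ((Int.fract (θ * t) : ℝ) : ℂ) + ((⌊θ * t⌋ : ℤ) : ℂ) := by
            exact_mod_cast congrArg (fun x : ℝ => (x : ℂ)) h6
          push_cast
          linear_combination (2 * Real.pi * Complex.I) * h7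
        rw [this, Complex.exp_add, Complex.exp_int_mul_two_pi_mul_I, mul_one]
      have e6 : ∀ t : ℕ, Complex.exp (2 * Real.pi * Complex.I * θ * ((m + t : ℕ) : ℂ)) =
          Complex.exp (2 * Real.pi * Complex.I * θ * m) * Complex.exp (2 * Real.pi * Complex.I * θ * t) := by
        intro t
        rw [← Complex.exp_add]
        congr 1
        push_cast
        ring
      have e7 : ‖Complex.exp (2 * Real.pi * Complex.I * θ * m)‖ = 1 := by
        rw [e5, mul_comm]
        exact Complex.norm_exp_ofReal_mul_I _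
      rw [e6, e6, ← mul_sub, norm_mul, e7, one_mul, e5, e5]
      -- |e^{ix} - e^{iy}| ≤ |x - y|
      have e8 : ∀ x y : ℝ, ‖Complex.exp (Complex.I * (x : ℂ)) - Complex.exp (Complex.I * (y : ℂ))‖ ≤ |x - y| := by
        intro x y
        have h8 : Complex.exp (Complex.I * (x : ℂ)) - Complex.exp (Complex.I * (y : ℂ)) =
            Complex.exp (Complex.I * (y : ℂ)) * (Complex.exp (Complex.I * ((x - y : ℝ) : ℂ)) - 1) := by
          rw [mul_sub, ← Complex.exp_add, mul_one]
          congr 2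
          push_cast
          ring
        rw [h8, norm_mul, mul_comm Complex.I (y : ℂ), Complex.norm_exp_ofReal_mul_I, one_mul]
        exact Real.norm_exp_I_mul_ofReal_sub_one_le
      refine (e8 _ _).trans ?_
      rw [← mul_sub, abs_mul, abs_of_pos (by positivity : (0 : ℝ) < 2 * Real.pi)]
      have h9 : 2 * Real.pi ≤ 8 := by linarith [Real.pi_lt_four]
      calc 2 * Real.pi * |Int.fract (θ * s) - Int.fract (θ * s')| ≤ 8 * (1 / L) := by
            apply mul_le_mul h9 h4 (abs_nonneg _) (by norm_num)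
        _ ≤ ε := by
            rw [mul_one_div, div_le_iff₀ hL0]
            have : 8 / ε ≤ L := by linarith
            rw [div_le_iff₀ hε] at this
            linarith
    · simp [hε.le]

/-! ### products of linear forms -/

/-- the one-sided case of the shifts `c`, `c + t`, `c ∈ C`: all of them and `t` are positive multiples of `M`, at
mutual distances at least `D`, `t` is a difference of two elements of `S C`, along the scales `A C` -/
def WeakShifts (M D : ℕ) (S A : Finset ℕ → Set ℕ) : Prop :=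
  ∀ C : Finset ℕ, C.Nonempty → (∀ c ∈ C, 1 ≤ c ∧ M ∣ c) → (∀ c ∈ C, ∀ c' ∈ C, c < c' → c + D ≤ c') →
    ∀ s ∈ S C, ∀ s' ∈ S C, ∀ t : ℕ, s' = s + t → M ∣ t → (∀ c ∈ C, c + D ≤ t) →
    ∀ ε : ℝ, 0 < ε → ∃ N₀ : ℕ, ∀ N ∈ A C, N₀ ≤ N →
      ∑ n ∈ Icc 1 N, ∏ c ∈ C, lam ((n : ℤ) + c) * lam ((n : ℤ) + c + t) ≤ ε * N

lemma shifts_linear (M D : ℕ) (hM : 1 ≤ M) (S A : Finset ℕ → Set ℕ) (hS : ∀ C, (S C).Infinite)
    (hA : ∀ C, Scales (A C)) (hW : WeakShifts M D S A) {ι : Type} [Fintype ι] [Nonempty ι] (a b : ι → ℕ)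
    (hab : ∀ i, 1 ≤ a i ∧ 1 ≤ b i) (hprop : ∀ i j, i ≠ j → a i * b j ≠ a j * b i)
    (w : ℕ → ℂ) (hw : AlmostPeriodic w) (ε : ℝ) (hε : 0 < ε) :
    ∃ x₀ : ℕ, ∀ x : ℕ, x₀ ≤ x → ‖∑ n ∈ Icc 1 x, ((∏ i, lam ((a i : ℤ) * n + b i) : ℝ) : ℂ) * w n‖ ≤ ε * x := by
  classical
  set d : ℕ := M * (D + 1) with hd
  have hd1 : 1 ≤ d := Nat.mul_pos hM (Nat.succ_pos _)
  have hdD : D ≤ d := by
    calc D ≤ 1 * (D + 1) := by omega
      _ ≤ d := by rw [hd]; gcongr
  set p : ι → ℕ := fun i => ∏ j ∈ univ.erase i, a j with hp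
  have hp1 : ∀ i, 1 ≤ p i := fun i => Finset.one_le_prod' (fun j _ => (hab j).1)
  set q : ℕ := d * ∏ j, a j with hq
  have hq1 : 1 ≤ q := Nat.mul_pos hd1 (Finset.one_le_prod' (fun j _ => (hab j).1))
  have hqp : ∀ i, q = d * p i * a i := by
    intro i
    have e := prod_erase_mul univ a (mem_univ i)
    show d * ∏ j, a j = d * (∏ j ∈ univ.erase i, a j) * a i
    rw [mul_assoc d, e]
  set c : ι → ℕ := fun i => d * p i * b i with hc
  have hcinj : Function.Injective c := by
    intro i j hij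
    by_contra hne
    apply hprop i j hne
    have h1 : d * p i * b i = d * p j * b j := hij
    have h2 : 0 < d * p i * (d * p j) := by
      have := hp1 i
      have := hp1 j
      positivity
    have e1 := hqp i
    have e2 := hqp j
    apply Nat.eq_of_mul_eq_mul_left h2
    calc d * p i * (d * p j) * (a i * b j) = (d * p i * a i) * (d * p j * b j) := by ring
      _ = q * (d * p i * b i) := by rw [← e1, ← h1]
      _ = (d * p j * a j) * (d * p i * b i) := by rw [← e2]
      _ = d * p i * (d * p j) * (a j * b i) := by ring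
  set Cs : Finset ℕ := univ.image c with hCs
  have hmem : ∀ x ∈ Cs, ∃ i, x = c i := by
    intro x hx
    obtain ⟨i, -, hi⟩ := mem_image.1 hx
    exact ⟨i, hi.symm⟩
  have hdc : ∀ x ∈ Cs, d ∣ x := by
    intro x hx
    obtain ⟨i, rfl⟩ := hmem x hx
    exact (dvd_mul_right d (p i)).mul_right _
  have hne : Cs.Nonempty := ⟨c (Classical.arbitrary ι), mem_image_of_mem _ (mem_univ _)⟩
  obtain ⟨r, hr⟩ := res_infinite (hS Cs) q hq1
  have hprod : ∀ g : ℕ → ℝ, ∏ x ∈ Cs, g x = ∏ i, g (c i) := by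
    intro g
    rw [hCs, prod_image (fun i _ j _ h => hcinj h)]
  refine core (fun n => ∏ i, lam ((a i : ℤ) * n + b i)) (fun m => ∏ x ∈ Cs, lam (m + x)) (fun m => ?_)
    (fun m => ?_) q hq1 (∏ i, lam (d * p i : ℕ)) ?_ (fun n => ?_) {j : ℕ | q * j + r ∈ S Cs} hr (A Cs) (hA Cs)
    (Cs.sup id + D) ?_ w hw ε hε
  · rw [abs_prod]
    exact prod_le_one (fun _ _ => abs_nonneg _) (fun _ _ => lam_abs _)
  · rw [abs_prod]
    exact prod_le_one (fun _ _ => abs_nonneg _) (fun _ _ => lam_abs _)
  · rw [abs_prod]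
    apply prod_eq_one
    intro i _
    apply lam_abs_one
    have := hp1 i
    have h2 : 0 < d * p i := by positivity
    exact_mod_cast h2.ne'
  · rw [hprod (fun x => lam ((q : ℤ) * n + x)), ← prod_mul_distrib]
    refine prod_congr rfl fun i _ => ?_
    rw [← lam_mul]
    congr 1
    conv_lhs => rw [hqp i]
    rw [hc]
    push_cast
    ring
  · intro j hj j' hj' hlt hle ε hε
    have hqj : q * j' = q * j + q * (j' - j) := by
      rw [← Nat.mul_add]
      congr 1
      omega
    have hMd : M ∣ d := dvd_mul_right _ _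
    obtain ⟨N₀, hN₀⟩ := hW Cs hne (fun x hx => ⟨by
        obtain ⟨i, rfl⟩ := hmem x hx
        have := hp1 i
        have := (hab i).2
        have : 0 < d * p i * b i := by positivity
        exact this, hMd.trans (hdc x hx)⟩) (fun x hx y hy hxy => by
      obtain ⟨u, hu⟩ := hdc x hx
      obtain ⟨v, hv⟩ := hdc y hy
      have h1 : u < v := by
        rw [hu, hv] at hxy
        exact Nat.lt_of_mul_lt_mul_left hxy
      have h2 : x + d ≤ y := by
        rw [hu, hv]
        calc d * u + d = d * (u + 1) := by ring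
          _ ≤ d * v := Nat.mul_le_mul_left d h1
      omega) _ hj _ hj' (q * (j' - j)) (by
        have e1 : q * j' + r = q * j + r + q * (j' - j) := by omega
        exact e1)
      ((hMd.trans (dvd_mul_right d _)).mul_right _) (fun x hx => by
        have h1 : x ≤ Cs.sup id := Finset.le_sup (f := id) hx
        have h2 : j' - j ≤ q * (j' - j) := Nat.le_mul_of_pos_left _ hq1
        omega) ε hε
    refine ⟨N₀, fun N hNA hN => ?_⟩
    refine le_trans (le_of_eq ?_) (hN₀ N hNA hN)
    refine sum_congr rfl fun m _ => ?_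
    rw [← prod_mul_distrib]
    refine prod_congr rfl fun x _ => ?_
    congr 2
    ring

end Q132.PV
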