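import Pool.Agent.Q132.PV.D

set_option autoImplicit false

/-!
# Removing the small primes from the values of a polynomial
-/

open Finset Polynomial

namespace Q132.PV

/-- Lagrange: a common divisor of `deg f + 1` values divides the leading coefficient times a product of differences -/
lemma dvd_vandermonde (f : ℤ[X]) (hf : f ≠ 0) (T : Finset ℤ) (hT : T.card = f.natDegree + 1) (m : ℤ)
    (hm : ∀ n ∈ T, m ∣ f.eval n) : m ∣ f.leadingCoeff * ∏ i ∈ T, ∏ j ∈ T.erase i, (i - j) := by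
  classical
  have hinj : Set.InjOn (fun i : ℤ => (i : ℚ)) (T : Set ℤ) := fun x _ y _ h => by
    have h' : (x : ℚ) = (y : ℚ) := h
    exact_mod_cast h'
  have hdeg : (T.card : WithBot ℕ) = (f.map (Int.castRingHom ℚ)).degree + 1 := by
    rw [hT, degree_map_eq_of_injective (Int.castRingHom ℚ).injective_int, degree_eq_natDegree hf]
    rfl
  have h1 := Lagrange.leadingCoeff_eq_sum hinj hdeg
  rw [leadingCoeff_map_of_injective (Int.castRingHom ℚ).injective_int] at h1
  have h2 : ∀ i ∈ T, (∏ j ∈ T.erase i, ((i : ℚ) - (j : ℚ))) ≠ 0 := by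
    intro i _
    rw [prod_ne_zero_iff]
    intro j hj
    have := (mem_erase.1 hj).1
    rw [sub_ne_zero]
    exact_mod_cast this.symm
  have h3 : ((f.leadingCoeff * ∏ i ∈ T, ∏ j ∈ T.erase i, (i - j) : ℤ) : ℚ) =
      ((∑ i ∈ T, f.eval i * ∏ k ∈ T.erase i, ∏ j ∈ T.erase k, (k - j) : ℤ) : ℚ) := by
    push_cast
    have e1 : (f.leadingCoeff : ℚ) = ∑ i ∈ T, (eval (i : ℚ) (f.map (Int.castRingHom ℚ))) /
        ∏ j ∈ T.erase i, ((i : ℚ) - (j : ℚ)) := by
      simpa using h1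
    rw [e1, sum_mul]
    refine sum_congr rfl fun i hi => ?_
    rw [← mul_prod_erase T (fun k => ∏ j ∈ T.erase k, ((k : ℚ) - (j : ℚ))) hi, ← mul_assoc,
      div_mul_cancel₀ _ (h2 i hi)]
    congr 1
    rw [eval_map, eval₂_at_intCast]
    rfl
  have h4 : f.leadingCoeff * ∏ i ∈ T, ∏ j ∈ T.erase i, (i - j) =
      ∑ i ∈ T, f.eval i * ∏ k ∈ T.erase i, ∏ j ∈ T.erase k, (k - j) := by exact_mod_cast h3
  rw [h4]
  exact dvd_sum fun i hi => (hm i hi).mul_right _

/-- short intervals contain at most `deg f` integers with values divisible by a large `m` -/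
lemma short_count (f : ℤ[X]) (hf : f ≠ 0) (L : ℕ) (m : ℕ)
    (hm : f.leadingCoeff.natAbs * L ^ (f.natDegree * (f.natDegree + 1)) < m) (T : Finset ℤ)
    (hT : ∀ i ∈ T, ∀ j ∈ T, |i - j| ≤ L) (hd : ∀ n ∈ T, (m : ℤ) ∣ f.eval n) : T.card ≤ f.natDegree := by
  classical
  by_contra hcon
  obtain ⟨U, hUT, hU⟩ := exists_subset_card_eq (show f.natDegree + 1 ≤ T.card by omega)
  have h1 := dvd_vandermonde f hf U hU m (fun n hn => hd n (hUT hn))
  have h2 : f.leadingCoeff * ∏ i ∈ U, ∏ j ∈ U.erase i, (i - j) ≠ 0 := by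
    refine mul_ne_zero (leadingCoeff_ne_zero.2 hf) ?_
    rw [prod_ne_zero_iff]
    intro i _
    rw [prod_ne_zero_iff]
    intro j hj
    rw [sub_ne_zero]
    exact (mem_erase.1 hj).1.symm
  have h3 := Int.le_of_dvd (abs_pos.2 h2) ((dvd_abs _ _).2 h1)
  have h4 : |f.leadingCoeff * ∏ i ∈ U, ∏ j ∈ U.erase i, (i - j)| ≤
      f.leadingCoeff.natAbs * (L : ℤ) ^ (f.natDegree * (f.natDegree + 1)) := by
    rw [abs_mul, Int.abs_eq_natAbs f.leadingCoeff, abs_prod]
    apply mul_le_mul_of_nonneg_left _ (by positivity)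
    calc ∏ i ∈ U, |∏ j ∈ U.erase i, (i - j)| ≤ ∏ i ∈ U, (L : ℤ) ^ f.natDegree := by
          apply prod_le_prod (fun _ _ => abs_nonneg _)
          intro i hi
          rw [abs_prod]
          calc ∏ j ∈ U.erase i, |i - j| ≤ ∏ j ∈ U.erase i, (L : ℤ) := by
                apply prod_le_prod (fun _ _ => abs_nonneg _)
                intro j hj
                exact hT i (hUT hi) j (hUT (mem_of_mem_erase hj))
            _ = (L : ℤ) ^ f.natDegree := by
                rw [prod_const, card_erase_of_mem hi, hU, Nat.add_sub_cancel]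
      _ = (L : ℤ) ^ (f.natDegree * (f.natDegree + 1)) := by
          rw [prod_const, hU, ← pow_mul]
  have h5 : (m : ℤ) ≤ ((f.leadingCoeff.natAbs * L ^ (f.natDegree * (f.natDegree + 1)) : ℕ) : ℤ) := by
    rw [Nat.cast_mul, Nat.cast_pow]
    exact h3.trans h4
  have h6 : m ≤ f.leadingCoeff.natAbs * L ^ (f.natDegree * (f.natDegree + 1)) := by exact_mod_cast h5
  omega

/-- the number of `n < W` with `m ∣ f(n)` -/
lemma count_le (f : ℤ[X]) (hf : f ≠ 0) (L : ℕ) (hL : 1 ≤ L) (m : ℕ)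
    (hm : f.leadingCoeff.natAbs * L ^ (f.natDegree * (f.natDegree + 1)) < m) (W : ℕ) :
    ((range W).filter (fun n : ℕ => (m : ℤ) ∣ f.eval (n : ℤ))).card ≤ f.natDegree * (W / L + 1) := by
  classical
  set s := (range W).filter (fun n : ℕ => (m : ℤ) ∣ f.eval (n : ℤ)) with hs
  have h1 : s.card ≤ f.natDegree * (s.image (fun n => n / L)).card := by
    apply card_le_mul_card_image
    intro k _
    have h2 : ((s.filter (fun n => n / L = k)).image (fun n : ℕ => (n : ℤ))).card ≤ f.natDegree := by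
      apply short_count f hf L m hm
      · intro i hi j hj
        obtain ⟨i', hi', rfl⟩ := mem_image.1 hi
        obtain ⟨j', hj', rfl⟩ := mem_image.1 hj
        have e1 := (mem_filter.1 hi').2
        have e2 := (mem_filter.1 hj').2
        have e3 := Nat.div_add_mod i' L
        have e4 := Nat.div_add_mod j' L
        have e5 := Nat.mod_lt i' hL
        have e6 := Nat.mod_lt j' hL
        rw [e1] at e3
        rw [e2] at e4
        rw [abs_le]
        constructor <;> omega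
      · intro n hn
        obtain ⟨n', hn', rfl⟩ := mem_image.1 hn
        exact (mem_filter.1 (mem_filter.1 hn').1).2
    rwa [card_image_of_injective _ (fun x y h => by exact_mod_cast h)] at h2
  refine h1.trans (Nat.mul_le_mul_left _ ?_)
  calc (s.image (fun n => n / L)).card ≤ (range (W / L + 1)).card := by
        apply card_le_card
        intro k hk
        obtain ⟨n, hn, rfl⟩ := mem_image.1 hk
        rw [mem_range]
        have := mem_range.1 (mem_filter.1 hn).1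
        exact Nat.lt_succ_of_le (Nat.div_le_div_right this.le)
    _ = W / L + 1 := card_range _

/-- the good classes -/
def Good (f : ℤ[X]) (M J b : ℕ) : Prop := Nat.gcd (f.eval (b : ℤ)).natAbs (M ^ J) ∣ M ^ (J - 1)

lemma not_good (f : ℤ[X]) (M J b : ℕ) (hM : 1 ≤ M) (h : ¬ Good f M J b) :
    ∃ p ∈ M.primeFactors, ((p ^ J : ℕ) : ℤ) ∣ f.eval (b : ℤ) := by
  unfold Good at h
  rw [Nat.dvd_iff_prime_pow_dvd_dvd] at h
  push Not at h
  obtain ⟨p, k, hp, hpk, hnot⟩ := h
  have h1 : p ^ k ∣ M ^ J := hpk.trans (Nat.gcd_dvd_right _ _)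
  have h2 : p ^ k ∣ (f.eval (b : ℤ)).natAbs := hpk.trans (Nat.gcd_dvd_left _ _)
  have hk0 : k ≠ 0 := by
    rintro rfl
    apply hnot
    rw [pow_zero]
    exact one_dvd _
  have hpM : p ∣ M := hp.dvd_of_dvd_pow ((dvd_pow_self p hk0).trans h1)
  have hkJ : J ≤ k := by
    by_contra hcon
    apply hnot
    have : p ^ (J - 1) ∣ M ^ (J - 1) := pow_dvd_pow_of_dvd hpM _
    exact (pow_dvd_pow p (by omega)).trans this
  refine ⟨p, Nat.mem_primeFactors.2 ⟨hp, hpM, by omega⟩, ?_⟩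
  rw [← Int.dvd_natAbs]
  exact_mod_cast (pow_dvd_pow p hkJ).trans h2

/-- for large `J` few classes modulo `M ^ J` are bad -/
lemma few_bad (f : ℤ[X]) (hf : f ≠ 0) (M : ℕ) (hM : 1 ≤ M) (ε : ℝ) (hε : 0 < ε) : ∃ J : ℕ, 1 ≤ J ∧
    ∀ B : Finset ℕ, (∀ b ∈ B, b < M ^ J ∧ ¬ Good f M J b) → (B.card : ℝ) ≤ ε * (M ^ J : ℕ) := by
  classical
  set r := f.natDegree with hr
  set ω := M.primeFactors.card with hω
  obtain ⟨L, hL⟩ := exists_nat_ge (2 * (ω * r) / ε + 1)
  have hL1 : (1 : ℝ) ≤ L := by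
    have : 0 ≤ 2 * (ω * r) / ε := by positivity
    linarith
  have hLn : 1 ≤ L := by exact_mod_cast hL1
  obtain ⟨Q, hQ⟩ := exists_nat_ge (2 * (ω * r) / ε)
  set J := f.leadingCoeff.natAbs * L ^ (r * (r + 1)) + 1 + Q with hJ
  have hJ2 : f.leadingCoeff.natAbs * L ^ (r * (r + 1)) < 2 ^ J :=
    lt_of_lt_of_le (by omega) (Nat.lt_two_pow_self (n := J)).le
  refine ⟨J, by omega, fun B hB => ?_⟩
  have h1 : B ⊆ M.primeFactors.biUnion (fun p => (range (M ^ J)).filter (fun n : ℕ =>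
      ((p ^ J : ℕ) : ℤ) ∣ f.eval (n : ℤ))) := by
    intro b hb
    obtain ⟨p, hp, hd⟩ := not_good f M J b hM (hB b hb).2
    rw [mem_biUnion]
    exact ⟨p, hp, mem_filter.2 ⟨mem_range.2 (hB b hb).1, hd⟩⟩
  have h2 : B.card ≤ ω * (r * (M ^ J / L + 1)) := by
    refine (card_le_card h1).trans (card_biUnion_le.trans ?_)
    calc _ ≤ ∑ p ∈ M.primeFactors, r * (M ^ J / L + 1) := by
          apply sum_le_sum
          intro p hp
          apply count_le f hf L hLn
          have h2p : 2 ≤ p := (Nat.mem_primeFactors.1 hp).1.two_le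
          exact hJ2.trans_le (Nat.pow_le_pow_left h2p J)
      _ = ω * (r * (M ^ J / L + 1)) := by rw [sum_const, smul_eq_mul]
  rcases Nat.eq_zero_or_pos ω with h0 | h0
  · rw [h0, zero_mul] at h2
    have : B.card = 0 := by omega
    rw [this, Nat.cast_zero]
    positivity
  have hM2 : 2 ≤ M := by
    by_contra hcon
    have : M = 1 := by omega
    rw [hω, this] at h0
    simp at h0
  have hW : (2 : ℝ) * (ω * r) / ε ≤ (M ^ J : ℕ) := by
    refine hQ.trans ?_
    have : Q ≤ M ^ J := by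
      calc Q ≤ J := by omega
        _ ≤ 2 ^ J := (Nat.lt_two_pow_self (n := J)).le
        _ ≤ M ^ J := Nat.pow_le_pow_left hM2 J
    exact_mod_cast this
  have hL0 : (0 : ℝ) < L := by linarith
  have h3 : ((M ^ J / L : ℕ) : ℝ) ≤ (M ^ J : ℕ) / L := Nat.cast_div_le
  have h4 : (ω * r : ℝ) * ((M ^ J : ℕ) / L) ≤ ε / 2 * (M ^ J : ℕ) := by
    have e1 : (ω * r : ℝ) ≤ ε / 2 * L := by
      have : 2 * (ω * r) / ε ≤ (L : ℝ) := by linarith
      rw [div_le_iff₀ hε] at this
      linarith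
    rw [← mul_div_assoc, div_le_iff₀ hL0]
    calc (ω * r : ℝ) * (M ^ J : ℕ) ≤ ε / 2 * L * (M ^ J : ℕ) := by gcongr
      _ = ε / 2 * (M ^ J : ℕ) * L := by ring
  have h5 : (ω * r : ℝ) ≤ ε / 2 * (M ^ J : ℕ) := by
    rw [div_le_iff₀ hε] at hW
    linarith
  calc (B.card : ℝ) ≤ ((ω * (r * (M ^ J / L + 1)) : ℕ) : ℝ) := by exact_mod_cast h2
    _ = (ω * r : ℝ) * ((M ^ J / L : ℕ) : ℝ) + ω * r := by push_cast; ring
    _ ≤ (ω * r : ℝ) * ((M ^ J : ℕ) / L) + ω * r := by gcongr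
    _ ≤ ε * (M ^ J : ℕ) := by linarith

end Q132.PV
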