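import Pool.Agent.Q132.PV.E

set_option autoImplicit false

/-!
# The normal form: polynomials congruent to a unit constant modulo `M`
-/

open Finset Polynomial

namespace Q132.PV

/-- the one-sided case of Chowla's conjecture for `h(X) h(X + t)`: `h` primitive, its constant coefficient is coprime
to `M` and all the others are divisible by `M`, `t` a difference of two elements of the set `S h`, the roots simple and
at distance `≥ D`, along the set of scales `A h` -/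
def WeakUnit (M : ℕ) (D : ℝ) (S A : ℤ[X] → Set ℕ) : Prop :=
  ∀ h : ℤ[X], h.IsPrimitive → 1 ≤ h.natDegree → (∀ i, 1 ≤ i → (M : ℤ) ∣ h.coeff i) →
    IsCoprime (M : ℤ) (h.coeff 0) →
    ∀ s ∈ S h, ∀ s' ∈ S h, ∀ t : ℕ, 1 ≤ t → s' = s + t →
    Squarefree (h * h.comp (X + C (t : ℤ))) → RootsApart D (h * h.comp (X + C (t : ℤ))) →
    ∀ ε : ℝ, 0 < ε → ∃ N₀ : ℕ, ∀ N ∈ A h, N₀ ≤ N →
      ∑ n ∈ Icc 1 N, lam ((h * h.comp (X + C (t : ℤ))).eval (n : ℤ)) ≤ ε * N

lemma prim_scale (f : ℤ[X]) (hf : f.IsPrimitive) (q : ℤ) (hq : IsCoprime q f.leadingCoeff) :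
    (scaleRoots f q).IsPrimitive := by
  intro c hc
  rw [C_dvd_iff_dvd_coeff] at hc
  have h1 : c ∣ f.leadingCoeff := by
    have := hc f.natDegree
    rwa [coeff_scaleRoots_natDegree] at this
  have h2 : IsCoprime c q := (hq.symm).of_isCoprime_of_dvd_left h1
  apply hf c
  rw [C_dvd_iff_dvd_coeff]
  intro i
  have h3 := hc i
  rw [coeff_scaleRoots] at h3
  exact (h2.pow_right).dvd_of_dvd_mul_right h3

lemma prim_comp (f : ℤ[X]) (hf : f.IsPrimitive) (t : ℤ) : (f.comp (X + C t)).IsPrimitive := by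
  intro c hc
  apply hf c
  obtain ⟨p, hp⟩ := hc
  refine ⟨p.comp (X - C t), ?_⟩
  have h1 : (f.comp (X + C t)).comp (X - C t) = f := by
    rw [comp_assoc]
    have : (X + C t : ℤ[X]).comp (X - C t) = X := by simp
    rw [this, comp_X]
  rw [← h1, hp, mul_comp, C_comp]

lemma unit_transfer (M : ℕ) (hM : 1 ≤ M) (D : ℝ) (S A : ℤ[X] → Set ℕ) (hS : ∀ h, (S h).Infinite)
    (hA : ∀ h, Scales (A h)) (hW : WeakUnit M D S A) (f : ℤ[X]) (hfp : f.IsPrimitive) (hd : 1 ≤ f.natDegree)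
    (hc : ∀ i, 1 ≤ i → (M : ℤ) ∣ f.coeff i) (hc0 : IsCoprime (M : ℤ) (f.coeff 0))
    (hsep : (f.map (Int.castRingHom ℂ)).Separable)
    (w : ℕ → ℂ) (hw : AlmostPeriodic w) (ε : ℝ) (hε : 0 < ε) :
    ∃ x₀ : ℕ, ∀ x : ℕ, x₀ ≤ x → ‖∑ n ∈ Icc 1 x, ((lam (f.eval (n : ℤ)) : ℝ) : ℂ) * w n‖ ≤ ε * x := by
  have hf0 : f ≠ 0 := by
    rintro rfl
    simp at hd
  obtain ⟨δ, R, hδ, hR0, hR, hδ'⟩ := root_data f hf0
  set D' : ℝ := max D 1 with hD'
  have hD'0 : 0 < D' := lt_of_lt_of_le one_pos (le_max_right _ _)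
  obtain ⟨d₀, hd₀⟩ := exists_nat_ge (D' / δ)
  obtain ⟨q, hqge, hq⟩ := Nat.exists_infinite_primes (M + f.leadingCoeff.natAbs + d₀ + 1)
  have hq1 : 1 ≤ q := hq.one_lt.le
  have hqM : IsCoprime (M : ℤ) (q : ℤ) := by
    rw [Nat.isCoprime_iff_coprime]
    exact (hq.coprime_iff_not_dvd.2 (fun h => by have := Nat.le_of_dvd hM h; omega)).symm
  have hl0 : 0 < f.leadingCoeff.natAbs := Int.natAbs_pos.2 (leadingCoeff_ne_zero.2 hf0)
  have hqlc : IsCoprime (q : ℤ) f.leadingCoeff := by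
    rw [Int.isCoprime_iff_nat_coprime, Int.natAbs_natCast]
    exact hq.coprime_iff_not_dvd.2 (fun h => by have := Nat.le_of_dvd hl0 h; omega)
  set H : ℤ[X] := scaleRoots f q with hH
  have hqD : D' ≤ q * δ := by
    have h1 : (d₀ : ℝ) ≤ q := by
      have : d₀ ≤ q := by omega
      exact_mod_cast this
    rw [div_le_iff₀ hδ] at hd₀
    nlinarith
  have hHp : H.IsPrimitive := prim_scale f hfp q hqlc
  have hHd : H.natDegree = f.natDegree := natDegree_scaleRoots f q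
  have hev : ∀ {B : Type} [CommRing B] (z : B), aeval ((q : B) * z) H = (q : B) ^ f.natDegree * aeval z f := by
    intro B _ z
    have h1 := scaleRoots_eval₂_mul (p := f) (Int.castRingHom B) z (q : ℤ)
    simp only [eq_intCast, Int.cast_natCast] at h1
    rw [aeval_def, aeval_def]
    have e : algebraMap ℤ B = Int.castRingHom B := Subsingleton.elim _ _
    rw [e, h1]
  have hc00 : ((q : ℤ) ^ f.natDegree) ≠ 0 := pow_ne_zero _ (by exact_mod_cast hq.ne_zero)
  have hcC : ((q : ℂ) ^ f.natDegree) ≠ 0 := pow_ne_zero _ (by exact_mod_cast hq.ne_zero)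
  obtain ⟨E, hE⟩ := exists_nat_ge (2 * R + D')
  refine transfer f H q hq1 _ hc00 (fun n => ?_) (S H) (A H) (hS H) (hA H) E ?_ w hw ε hε
  · have := hev n
    simpa [coe_aeval_eq_eval] using this
  · intro s hs s' hs' l hl hl1 hss ε hε
    obtain ⟨h1, h2⟩ := pair_apart f H q hq1 _ hcC (fun z => hev z) hsep δ R D' hD'0
      hR hδ' hqD l (hE.trans (by exact_mod_cast hl))
    refine hW H hHp (by rw [hHd]; exact hd) (fun i hi => ?_) ?_ s hs s' hs' (q * l)
      (Nat.mul_pos hq1 hl1) hss (squarefree_of_separable _ (hHp.mul (prim_comp H hHp _)) h1) ?_ ε hε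
    · rw [hH, coeff_scaleRoots]
      exact (hc i hi).mul_right _
    · rw [hH, coeff_scaleRoots]
      exact hc0.mul_right hqM.pow_right
    · intro x y hx hy hne
      exact (le_max_left D 1).trans (h2 x y hx hy hne)

/-- the polynomial `f(M ^ J X + b)` of a good class -/
lemma class_poly (f : ℤ[X]) (hf : f ≠ 0) (M J b : ℕ) (hM : 1 ≤ M) (hJ : 1 ≤ J) (hg : Good f M J b) :
    ∃ (c : ℤ) (F : ℤ[X]), c ≠ 0 ∧ F.IsPrimitive ∧ (∀ i, 1 ≤ i → (M : ℤ) ∣ F.coeff i) ∧
      IsCoprime (M : ℤ) (F.coeff 0) ∧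
      f.comp (C ((M ^ J : ℕ) : ℤ) * X + C (b : ℤ)) = C c * F := by
  unfold Good at hg
  set v : ℤ := f.eval (b : ℤ) with hv
  set g : ℕ := Nat.gcd v.natAbs (M ^ J) with hgdef
  have hMJ : 0 < M ^ J := Nat.pow_pos hM
  have hg0 : 0 < g := Nat.gcd_pos_of_pos_right _ hMJ
  obtain ⟨u, hu⟩ : (g : ℤ) ∣ v := by
    rw [← Int.dvd_natAbs]
    exact_mod_cast Nat.gcd_dvd_left _ _
  obtain ⟨v', hv'⟩ := hg
  have hW : M ^ J = g * (M * v') := by
    calc M ^ J = M * M ^ (J - 1) := by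
          rw [← pow_succ']
          congr 1
          omega
      _ = g * (M * v') := by rw [hv']; ring
  -- the quotient
  have hdvd : (X - C (b : ℤ)) ∣ (f - C v) := by
    rw [dvd_iff_isRoot, IsRoot.def, eval_sub, eval_C, ← hv, sub_self]
  obtain ⟨p, hp⟩ := hdvd
  set Q : ℤ[X] := p.comp (C ((M ^ J : ℕ) : ℤ) * X + C (b : ℤ)) with hQ
  set fb : ℤ[X] := C u + C ((M : ℤ) * v') * (X * Q) with hfb
  have h1 : f.comp (C ((M ^ J : ℕ) : ℤ) * X + C (b : ℤ)) = C (g : ℤ) * fb := by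
    have e1 : f = C v + (X - C (b : ℤ)) * p := by rw [← hp]; ring
    have e2 : f.comp (C ((M ^ J : ℕ) : ℤ) * X + C (b : ℤ)) = C v + (C ((M ^ J : ℕ) : ℤ) * X) * Q := by
      conv_lhs => rw [e1]
      rw [add_comp, mul_comp, sub_comp, C_comp, C_comp, X_comp]
      ring
    rw [e2, hfb, hu, hW]
    simp only [C_mul, Nat.cast_mul]
    ring
  have hcomp0 : f.comp (C ((M ^ J : ℕ) : ℤ) * X + C (b : ℤ)) ≠ 0 := by
    have hdeg : (C ((M ^ J : ℕ) : ℤ) * X + C (b : ℤ) : ℤ[X]).natDegree = 1 :=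
      natDegree_linear (by exact_mod_cast hMJ.ne')
    intro h
    rw [comp_eq_zero_iff] at h
    rcases h with h | h
    · exact hf h
    · rw [h.2, natDegree_C] at hdeg
      omega
  have hfb0 : fb ≠ 0 := by
    rintro h
    rw [h, mul_zero] at h1
    exact hcomp0 h1
  have hco : IsCoprime (M : ℤ) u := by
    rw [Int.isCoprime_iff_nat_coprime, Int.natAbs_natCast]
    by_contra hcon
    obtain ⟨ℓ, hℓ, hℓM, hℓu⟩ := Nat.Prime.not_coprime_iff_dvd.1 hcon
    have e1 : g * ℓ ∣ v.natAbs := by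
      rw [hu, Int.natAbs_mul, Int.natAbs_natCast]
      exact mul_dvd_mul_left g hℓu
    have e2 : g * ℓ ∣ M ^ J := by
      rw [hW]
      exact mul_dvd_mul_left g (hℓM.mul_right v')
    have e3 : g * ℓ ∣ g := Nat.dvd_gcd e1 e2
    have e4 := Nat.le_of_dvd hg0 e3
    have := hℓ.two_le
    nlinarith
  have hcoeff0 : fb.coeff 0 = u := by
    rw [hfb, coeff_add, coeff_C_zero, coeff_C_mul, coeff_X_mul_zero, mul_zero, add_zero]
  have hcoeff : ∀ i, 1 ≤ i → (M : ℤ) ∣ fb.coeff i := by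
    intro i hi
    rw [hfb, coeff_add, coeff_C, if_neg (by omega), zero_add, coeff_C_mul, mul_assoc]
    exact dvd_mul_right _ _
  have hcont : ∀ i, fb.coeff i = fb.content * fb.primPart.coeff i := by
    intro i
    conv_lhs => rw [fb.eq_C_content_mul_primPart]
    rw [coeff_C_mul]
  have hκ : IsCoprime (M : ℤ) fb.content := by
    refine hco.of_isCoprime_of_dvd_right ?_
    rw [← hcoeff0, hcont 0]
    exact dvd_mul_right _ _
  refine ⟨g * fb.content, fb.primPart, ?_, fb.isPrimitive_primPart, fun i hi => ?_, ?_, ?_⟩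
  · refine mul_ne_zero (by exact_mod_cast hg0.ne') ?_
    rwa [Ne, content_eq_zero_iff]
  · have := hcoeff i hi
    rw [hcont i] at this
    exact hκ.dvd_of_dvd_mul_left this
  · refine hco.of_isCoprime_of_dvd_right ?_
    rw [← hcoeff0, hcont 0]
    exact dvd_mul_left _ _
  · rw [h1, C_mul, mul_assoc, ← fb.eq_C_content_mul_primPart]

lemma ap_dilate (w : ℕ → ℂ) (hw : AlmostPeriodic w) (W b : ℕ) : AlmostPeriodic (fun m => w (W * m + b)) := by
  apply ap_of_finite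
  intro ε hε
  obtain ⟨K, hK⟩ := hw (ε / 2) (half_pos hε)
  choose c hc hcw using hK
  refine ⟨Fin K, inferInstance, fun s => ⟨c (W * s), hc _⟩, fun s s' h m => ?_⟩
  rw [Fin.mk.injEq] at h
  have h1 := hcw (W * s) (W * m + b)
  have h2 := hcw (W * s') (W * m + b)
  rw [h] at h1
  have e1 : W * (m + s) + b = W * m + b + W * s := by ring
  have e2 : W * (m + s') + b = W * m + b + W * s' := by ring
  simp only [e1, e2]
  have h3 := norm_sub_le (w (W * m + b + W * s) - w (W * m + b + c (W * s')))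
    (w (W * m + b + W * s') - w (W * m + b + c (W * s')))
  rw [sub_sub_sub_cancel_right] at h3
  linarith

lemma range_Icc {E : Type*} [NormedAddCommGroup E] (g : ℕ → E) (A : ℝ) (hA : ∀ n, ‖g n‖ ≤ A) (y : ℕ) :
    ‖∑ m ∈ range y, g m - ∑ m ∈ Icc 1 y, g m‖ ≤ 2 * A := by
  have h1 : ∀ y : ℕ, ∑ m ∈ range y, g m - ∑ m ∈ Icc 1 y, g m = g 0 - g y := by
    intro y
    induction y with
    | zero => simp
    | succ y ih =>
      rw [sum_range_succ, sum_Icc_succ_top (by omega)]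
      have : ∑ m ∈ range y, g m = (∑ m ∈ Icc 1 y, g m) + (g 0 - g y) := by rw [← ih]; abel
      rw [this]
      abel
  rw [h1]
  have := norm_sub_le (g 0) (g y)
  linarith [hA 0, hA y]

lemma range_mul_sum {E : Type*} [AddCommMonoid E] (g : ℕ → E) (W y : ℕ) :
    ∑ n ∈ range (W * y), g n = ∑ b ∈ range W, ∑ m ∈ range y, g (W * m + b) := by
  induction y with
  | zero => simp
  | succ y ih =>
    rw [Nat.mul_succ, sum_range_add, ih, ← sum_add_distrib]
    refine sum_congr rfl fun b _ => ?_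
    rw [sum_range_succ]

theorem unit_strong (M : ℕ) (hM : 1 ≤ M) (D : ℝ) (S A : ℤ[X] → Set ℕ) (hS : ∀ h, (S h).Infinite)
    (hA : ∀ h, Scales (A h)) (hW : WeakUnit M D S A) (f : ℤ[X]) (hf : Squarefree f) (hd : 1 ≤ f.natDegree)
    (w : ℕ → ℂ) (hw : AlmostPeriodic w) (ε : ℝ) (hε : 0 < ε) :
    ∃ x₀ : ℕ, ∀ x : ℕ, x₀ ≤ x → ‖∑ n ∈ Icc 1 x, ((lam (f.eval (n : ℤ)) : ℝ) : ℂ) * w n‖ ≤ ε * x := by
  classical
  obtain ⟨V, hV1, hV⟩ := hw.bdd
  have hf0 := hf.ne_zero
  obtain ⟨J, hJ, hbad⟩ := few_bad f hf0 M hM (ε / (4 * V)) (by positivity)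
  set W : ℕ := M ^ J with hWd
  have hW1 : 1 ≤ W := Nat.pow_pos hM
  -- the good classes
  have h1 : ∀ b : ℕ, Good f M J b → ∃ x₀ : ℕ, ∀ y : ℕ, x₀ ≤ y →
      ‖∑ m ∈ Icc 1 y, ((lam (f.eval ((W * m + b : ℕ) : ℤ)) : ℝ) : ℂ) * w (W * m + b)‖ ≤ ε / 4 * y := by
    intro b hb
    obtain ⟨c, F, hc, hFp, hFc, hF0, he⟩ := class_poly f hf0 M J b hM hJ hb
    have hdeg : F.natDegree = f.natDegree := by
      have e1 := congrArg natDegree he
      rw [natDegree_comp, natDegree_linear (by exact_mod_cast (Nat.pow_pos hM).ne'), mul_one,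
        natDegree_C_mul hc] at e1
      exact e1.symm
    have hsep : (F.map (Int.castRingHom ℂ)).Separable := by
      have e1 := congrArg (Polynomial.map (Int.castRingHom ℂ)) he
      rw [Polynomial.map_comp, Polynomial.map_mul, Polynomial.map_add, Polynomial.map_mul, map_C, map_C, map_C,
        map_X] at e1
      have e2 := sep_comp_lin _ (separable_of_squarefree f hf) ((Int.castRingHom ℂ) ((M ^ J : ℕ) : ℤ))
        ((Int.castRingHom ℂ) (b : ℤ)) (by
          have : ((M ^ J : ℕ) : ℂ) ≠ 0 := by exact_mod_cast (Nat.pow_pos hM).ne'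
          simpa using this)
      rw [e1] at e2
      exact e2.of_mul_right
    obtain ⟨x₀, hx₀⟩ := unit_transfer M hM D S A hS hA hW F hFp (by rw [hdeg]; exact hd) hFc hF0 hsep
      (fun m => w (W * m + b)) (ap_dilate w hw W b) (ε / 4) (by positivity)
    refine ⟨x₀, fun y hy => ?_⟩
    have e1 : ∀ m : ℕ, lam (f.eval ((W * m + b : ℕ) : ℤ)) = lam c * lam (F.eval (m : ℤ)) := by
      intro m
      rw [← lam_mul]
      congr 1
      have := congrArg (eval (m : ℤ)) he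
      rw [eval_comp, eval_mul, eval_C] at this
      rw [← this]
      congr 1
      simp [hWd]
    have e2 : ∑ m ∈ Icc 1 y, ((lam (f.eval ((W * m + b : ℕ) : ℤ)) : ℝ) : ℂ) * w (W * m + b) =
        ((lam c : ℝ) : ℂ) * ∑ m ∈ Icc 1 y, ((lam (F.eval (m : ℤ)) : ℝ) : ℂ) * w (W * m + b) := by
      rw [mul_sum]
      refine sum_congr rfl fun m _ => ?_
      rw [e1]
      push_cast
      ring
    rw [e2, norm_mul, Complex.norm_real, Real.norm_eq_abs, lam_abs_one hc, one_mul]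
    exact hx₀ y hy
  choose! X₀ hX₀ using h1
  set X₁ : ℕ := (range W).sup X₀ with hX₁
  obtain ⟨X₂, hX₂⟩ := exists_nat_ge (5 * V * W / (ε / 2))
  refine ⟨max (W * X₁) X₂, fun x hx => ?_⟩
  set ψ : ℕ → ℂ := fun n => ((lam (f.eval (n : ℤ)) : ℝ) : ℂ) * w n with hψ
  have hψV : ∀ n, ‖ψ n‖ ≤ V := by
    intro n
    simp only [hψ]
    rw [norm_mul, Complex.norm_real, Real.norm_eq_abs]
    calc |lam (f.eval (n : ℤ))| * ‖w n‖ ≤ 1 * V := mul_le_mul (lam_abs _) (hV n) (norm_nonneg _) zero_le_one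
      _ = V := one_mul _
  set y : ℕ := x / W with hy
  have hyX : X₁ ≤ y := by
    rw [hy, Nat.le_div_iff_mul_le hW1, mul_comm]
    exact (le_max_left _ _).trans hx
  have hx2 : 5 * V * W ≤ ε / 2 * x := by
    have : 5 * V * W / (ε / 2) ≤ x := hX₂.trans (by exact_mod_cast (le_max_right _ _).trans hx)
    rw [div_le_iff₀ (by positivity)] at this
    linarith
  have hWy : ((W * y : ℕ) : ℝ) ≤ x := by exact_mod_cast Nat.mul_div_le x W
  -- the classes
  have h2 : ∀ b ∈ range W, ‖∑ m ∈ range y, ψ (W * m + b)‖ ≤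
      (ε / 4 * y + 2 * V) + (if Good f M J b then 0 else V * y) := by
    intro b hb
    split_ifs with hgd
    · have e1 := hX₀ b hgd y ((Finset.le_sup (f := X₀) hb).trans hyX)
      have e2 := range_Icc (fun m => ψ (W * m + b)) V (fun m => hψV _) y
      have e3 : ‖∑ m ∈ range y, ψ (W * m + b)‖ ≤
          ‖∑ m ∈ range y, ψ (W * m + b) - ∑ m ∈ Icc 1 y, ψ (W * m + b)‖ + ‖∑ m ∈ Icc 1 y, ψ (W * m + b)‖ := by
        have := norm_add_le (∑ m ∈ range y, ψ (W * m + b) - ∑ m ∈ Icc 1 y, ψ (W * m + b))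
          (∑ m ∈ Icc 1 y, ψ (W * m + b))
        rwa [sub_add_cancel] at this
      have e4 : ‖∑ m ∈ Icc 1 y, ψ (W * m + b)‖ ≤ ε / 4 * y := e1
      linarith
    · have e1 : ‖∑ m ∈ range y, ψ (W * m + b)‖ ≤ V * y := by
        calc _ ≤ ∑ m ∈ range y, V := (norm_sum_le _ _).trans (sum_le_sum fun m _ => hψV _)
          _ = V * y := by rw [sum_const, card_range, nsmul_eq_mul, mul_comm]
      have e2 : 0 ≤ ε / 4 * y + 2 * V := by positivity
      linarith
  have h3 : ‖∑ n ∈ range (W * y), ψ n‖ ≤ W * (ε / 4 * y + 2 * V) + ε / 4 * (W * y) := by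
    rw [range_mul_sum]
    calc _ ≤ ∑ b ∈ range W, ((ε / 4 * y + 2 * V) + (if Good f M J b then 0 else V * y)) :=
          (norm_sum_le _ _).trans (sum_le_sum h2)
      _ = W * (ε / 4 * y + 2 * V) + (((range W).filter (fun b => ¬ Good f M J b)).card : ℝ) * (V * y) := by
          rw [sum_add_distrib, sum_const, card_range, nsmul_eq_mul]
          congr 1
          rw [sum_ite, sum_const_zero, zero_add, sum_const, nsmul_eq_mul]
      _ ≤ W * (ε / 4 * y + 2 * V) + (ε / (4 * V) * W) * (V * y) := by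
          have e1 := hbad ((range W).filter (fun b => ¬ Good f M J b)) (fun b hb => by
            rw [mem_filter, mem_range] at hb
            exact hb)
          gcongr
      _ = W * (ε / 4 * y + 2 * V) + ε / 4 * (W * y) := by
          have : V ≠ 0 := by positivity
          field_simp
  -- the remainder
  have h4 : ‖∑ n ∈ Icc 1 x, ψ n - ∑ n ∈ range (W * y), ψ n‖ ≤ 2 * V + W * V := by
    have e1 := range_Icc ψ V hψV x
    have e2 : ∑ n ∈ range x, ψ n - ∑ n ∈ range (W * y), ψ n = ∑ n ∈ range (x % W), ψ (W * y + n) := by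
      conv_lhs => rw [← Nat.div_add_mod x W, ← hy]
      rw [sum_range_add]
      abel
    have e3 : ‖∑ n ∈ range (x % W), ψ (W * y + n)‖ ≤ W * V := by
      calc _ ≤ ∑ n ∈ range (x % W), V := (norm_sum_le _ _).trans (sum_le_sum fun m _ => hψV _)
        _ = (x % W : ℕ) * V := by rw [sum_const, card_range, nsmul_eq_mul]
        _ ≤ W * V := by
            have : ((x % W : ℕ) : ℝ) ≤ W := by exact_mod_cast (Nat.mod_lt x hW1).le
            gcongr
    have e4 : ∑ n ∈ Icc 1 x, ψ n - ∑ n ∈ range (W * y), ψ n =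
        (∑ n ∈ range x, ψ n - ∑ n ∈ range (W * y), ψ n) - (∑ n ∈ range x, ψ n - ∑ n ∈ Icc 1 x, ψ n) := by abel
    rw [e4, e2]
    have := norm_sub_le (∑ n ∈ range (x % W), ψ (W * y + n)) (∑ n ∈ range x, ψ n - ∑ n ∈ Icc 1 x, ψ n)
    linarith
  have hW1' : (1 : ℝ) ≤ W := by exact_mod_cast hW1
  have h5 : ‖∑ n ∈ Icc 1 x, ψ n‖ ≤ (2 * V + W * V) + (W * (ε / 4 * y + 2 * V) + ε / 4 * (W * y)) := by
    have := norm_add_le (∑ n ∈ Icc 1 x, ψ n - ∑ n ∈ range (W * y), ψ n) (∑ n ∈ range (W * y), ψ n)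
    rw [sub_add_cancel] at this
    linarith
  refine h5.trans ?_
  push_cast at hWy
  have h6 : 2 * V ≤ 2 * V * W := by nlinarith
  have h7 : ε / 2 * (W * y) ≤ ε / 2 * x := by gcongr
  nlinarith

end Q132.PV
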